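import Pool.Agent.H.MP_59b15d_al.sp.Base

/-!
# The complex of primitive vectors of `Z^{2g}`: vertices, edges, cells, coverings

Vertices are the (oriented) primitive vectors. Edges: `AdjA x y` (orthogonal, the two vectors span a
direct summand) and `AdjB x y` (`om x y = ± 1`). Cells: `± x ± y ± z = 0` with `x, y` adjacent;
one vector orthogonal to two others with `om = ± 1`; three pairwise orthogonal vectors which span a
direct summand of rank three. A covering `Cov π E` is a graph `E` over the vertices with unique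
lifting of edges and lifting of cells. The theorem (file `Main.lean`) is that for `g ≥ 2` the map `π` is
injective on the connected components of `E`.
-/

set_option autoImplicit false

namespace Pool.Agent.H.MP_59b15d_al.PC

open SP

variable {g : ℕ}

/-- Primitive vectors. -/
def Prim (x : V g) : Prop := ∃ w, om x w = 1

/-- Two vectors that span a direct summand of rank two. -/
def Uni (x y : V g) : Prop := (∃ a, om x a = 1 ∧ om y a = 0) ∧ ∃ b, om x b = 0 ∧ om y b = 1

/-- Three vectors that span a direct summand of rank three. -/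
def Uni3 (x y z : V g) : Prop :=
  (∃ a, om x a = 1 ∧ om y a = 0 ∧ om z a = 0) ∧ (∃ b, om x b = 0 ∧ om y b = 1 ∧ om z b = 0) ∧
    ∃ c, om x c = 0 ∧ om y c = 0 ∧ om z c = 1

/-- Edges of type A. -/
def AdjA (x y : V g) : Prop := om x y = 0 ∧ Uni x y

/-- Edges of type B. -/
def AdjB (x y : V g) : Prop := om x y = 1 ∨ om x y = -1

/-- Edges. -/
def Adj (x y : V g) : Prop := AdjA x y ∨ AdjB x y

/-- `z = ± x ± y`. -/
def Sgn (x y z : V g) : Prop :=
  ∃ s t : ℤ, (s = 1 ∨ s = -1) ∧ (t = 1 ∨ t = -1) ∧ z = s • x + t • y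

/-- `x` is primitive and orthogonal to the edge `y, z` of type B. -/
def Orth (x y z : V g) : Prop := Prim x ∧ om x y = 0 ∧ om x z = 0 ∧ AdjB y z

/-- Three pairwise orthogonal vectors that span a direct summand of rank three. -/
def Iso3 (x y z : V g) : Prop := om x y = 0 ∧ om x z = 0 ∧ om y z = 0 ∧ Uni3 x y z

/-- Cells. -/
def Cell (x y z : V g) : Prop :=
  (Adj x y ∧ Sgn x y z) ∨ Orth x y z ∨ Orth y x z ∨ Orth z x y ∨ Iso3 x y z

/-- Coverings of the complex. -/
structure Cov {X : Type*} (π : X → V g) (E : X → X → Prop) : Prop where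
  /-- `E` is symmetric -/
  symm : ∀ x y, E x y → E y x
  /-- `E` lies over the edges -/
  adj : ∀ x y, E x y → Adj (π x) (π y)
  /-- edges can be lifted -/
  lift : ∀ x w, Adj (π x) w → ∃ y, π y = w ∧ E x y
  /-- the lift is unique -/
  uniq : ∀ x y y', E x y → E x y' → π y = π y' → y = y'
  /-- cells can be lifted -/
  cell : ∀ x y z, Cell (π x) (π y) (π z) → E x y → E x z → E y z

lemma AdjB.symm {x y : V g} (h : AdjB x y) : AdjB y x := by
  rcases h with h | h
  · right
    rw [om_swap, h]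
  · left
    rw [om_swap, h]
    ring

lemma Uni.symm {x y : V g} (h : Uni x y) : Uni y x := by
  obtain ⟨⟨a, h1, h2⟩, b, h3, h4⟩ := h
  exact ⟨⟨b, h4, h3⟩, a, h2, h1⟩

lemma AdjA.symm {x y : V g} (h : AdjA x y) : AdjA y x :=
  ⟨by rw [om_swap, h.1, neg_zero], h.2.symm⟩

lemma Adj.symm {x y : V g} (h : Adj x y) : Adj y x := h.imp AdjA.symm AdjB.symm

lemma Uni.left {x y : V g} (h : Uni x y) : Prim x := by
  obtain ⟨⟨a, h1, -⟩, -⟩ := h
  exact ⟨a, h1⟩

lemma Uni.right {x y : V g} (h : Uni x y) : Prim y := h.symm.left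

lemma AdjB.left {x y : V g} (h : AdjB x y) : Prim x := by
  rcases h with h | h
  · exact ⟨y, h⟩
  · exact ⟨-y, by rw [om_neg_right, h, neg_neg]⟩

lemma AdjB.right {x y : V g} (h : AdjB x y) : Prim y := h.symm.left

lemma Adj.left {x y : V g} (h : Adj x y) : Prim x := by
  rcases h with h | h
  · exact h.2.left
  · exact h.left

lemma Adj.right {x y : V g} (h : Adj x y) : Prim y := h.symm.left

lemma Prim.ne {x : V g} (h : Prim x) : x ≠ 0 := by
  rintro rfl
  obtain ⟨w, hw⟩ := h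
  rw [om_zero_left] at hw
  exact zero_ne_one hw

lemma Prim.neg {x : V g} (h : Prim x) : Prim (-x) := by
  obtain ⟨w, hw⟩ := h
  exact ⟨-w, by rw [om_neg_left, om_neg_right, hw, neg_neg]⟩

/-- An orthogonal primitive vector is adjacent to both ends of an edge of type B. -/
lemma Orth.adjA {x y z : V g} (h : Orth x y z) : AdjA x y := by
  obtain ⟨⟨w, hw⟩, h1, h2, h3⟩ := h
  have h2' : om z x = 0 := by rw [om_swap, h2, neg_zero]
  refine ⟨h1, ?_⟩
  rcases h3 with h3 | h3
  · refine ⟨⟨w - om y w • z, ?_, ?_⟩, z, h2, h3⟩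
    · rw [om_sub_right, om_smul_right, hw, h2]
      ring
    · rw [om_sub_right, om_smul_right, h3]
      ring
  · refine ⟨⟨w + om y w • z, ?_, ?_⟩, -z, ?_, ?_⟩
    · rw [om_add_right, om_smul_right, hw, h2]
      ring
    · rw [om_add_right, om_smul_right, h3]
      ring
    · rw [om_neg_right, h2, neg_zero]
    · rw [om_neg_right, h3, neg_neg]

lemma Orth.swap {x y z : V g} (h : Orth x y z) : Orth x z y := ⟨h.1, h.2.2.1, h.2.1, h.2.2.2.symm⟩

lemma Orth.adjA' {x y z : V g} (h : Orth x y z) : AdjA x z := h.swap.adjA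

lemma Iso3.adjA {x y z : V g} (h : Iso3 x y z) : AdjA x y := by
  obtain ⟨h1, -, -, ⟨a, a1, a2, -⟩, ⟨b, b1, b2, -⟩, -⟩ := h
  exact ⟨h1, ⟨a, a1, a2⟩, b, b1, b2⟩

lemma Iso3.swap {x y z : V g} (h : Iso3 x y z) : Iso3 x z y := by
  obtain ⟨h1, h2, h3, ⟨a, a1, a2, a3⟩, ⟨b, b1, b2, b3⟩, ⟨c, c1, c2, c3⟩⟩ := h
  exact ⟨h2, h1, by rw [om_swap, h3, neg_zero], ⟨a, a1, a3, a2⟩, ⟨c, c1, c3, c2⟩, ⟨b, b1, b3, b2⟩⟩

lemma Iso3.rot {x y z : V g} (h : Iso3 x y z) : Iso3 y x z := by
  obtain ⟨h1, h2, h3, ⟨a, a1, a2, a3⟩, ⟨b, b1, b2, b3⟩, ⟨c, c1, c2, c3⟩⟩ := h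
  exact ⟨by rw [om_swap, h1, neg_zero], h3, h2, ⟨b, b2, b1, b3⟩, ⟨a, a2, a1, a3⟩, ⟨c, c2, c1, c3⟩⟩

/-- The difference of the ends of an edge: the third vertex of a cell. -/
lemma Sgn.swap {x y z : V g} (h : Sgn x y z) : Sgn y x z := by
  obtain ⟨s, t, hs, ht, e⟩ := h
  exact ⟨t, s, ht, hs, by rw [e, add_comm]⟩

lemma Sgn.rot {x y z : V g} (h : Sgn x y z) : Sgn x z y := by
  obtain ⟨s, t, hs, ht, e⟩ := h
  have ht2 : t * t = 1 := by rcases ht with h | h <;> rw [h] <;> rfl
  refine ⟨-(s * t), t, ?_, ht, ?_⟩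
  · rcases hs with h | h <;> rcases ht with h' | h' <;> rw [h, h'] <;> decide
  · rw [e, smul_add, smul_smul, smul_smul, ht2, one_smul, mul_comm t s, ← add_assoc, ← add_smul]
    simp

/-- `z = ± x ± y` is adjacent to `x` if `y` is, with an edge of the same type. -/
lemma AdjB.sgn {x y z : V g} (h : AdjB x y) (hs : Sgn x y z) : AdjB x z := by
  obtain ⟨s, t, hs, ht, e⟩ := hs
  have e1 : om x z = t * om x y := by
    rw [e, om_add_right, om_smul_right, om_smul_right, om_self]
    ring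
  unfold AdjB at h ⊢
  rw [e1]
  rcases h with h | h <;> rcases ht with h' | h' <;> rw [h, h'] <;> decide

lemma AdjA.sgn {x y z : V g} (h : AdjA x y) (hs : Sgn x y z) : AdjA x z := by
  obtain ⟨s, t, hs, ht, e⟩ := hs
  have ht2 : t * t = 1 := by rcases ht with h | h <;> rw [h] <;> rfl
  obtain ⟨h0, ⟨a, a1, a2⟩, b, b1, b2⟩ := h
  refine ⟨?_, ⟨a - (s * t) • b, ?_, ?_⟩, t • b, ?_, ?_⟩
  · rw [e, om_add_right, om_smul_right, om_smul_right, om_self, h0]
    ring
  · rw [om_sub_right, om_smul_right, a1, b1]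
    ring
  · rw [e, om_add_left, om_smul_left, om_smul_left, om_sub_right, om_sub_right, om_smul_right,
      om_smul_right, a1, a2, b1, b2]
    linear_combination (-s) * ht2
  · rw [om_smul_right, b1, mul_zero]
  · rw [e, om_add_left, om_smul_left, om_smul_left, om_smul_right, om_smul_right, b1, b2]
    linear_combination ht2

lemma Adj.sgn {x y z : V g} (h : Adj x y) (hs : Sgn x y z) : Adj x z :=
  h.imp (fun h => h.sgn hs) (fun h => h.sgn hs)

/-- In a cell all pairs are adjacent. -/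
lemma Cell.adj {x y z : V g} (h : Cell x y z) : Adj x y := by
  rcases h with h | h | h | h | h
  · exact h.1
  · exact Or.inl h.adjA
  · exact Or.inl h.adjA.symm
  · exact Or.inr h.2.2.2
  · exact Or.inl h.adjA

lemma Cell.swap {x y z : V g} (h : Cell x y z) : Cell x z y := by
  rcases h with h | h | h | h | h
  · exact Or.inl ⟨h.1.sgn h.2, h.2.rot⟩
  · exact Or.inr (Or.inl h.swap)
  · exact Or.inr (Or.inr (Or.inr (Or.inl h)))
  · exact Or.inr (Or.inr (Or.inl h))
  · exact Or.inr (Or.inr (Or.inr (Or.inr h.swap)))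

lemma Cell.rot {x y z : V g} (h : Cell x y z) : Cell y x z := by
  rcases h with h | h | h | h | h
  · exact Or.inl ⟨h.1.symm, h.2.swap⟩
  · exact Or.inr (Or.inr (Or.inl h))
  · exact Or.inr (Or.inl h)
  · exact Or.inr (Or.inr (Or.inr (Or.inl h.swap)))
  · exact Or.inr (Or.inr (Or.inr (Or.inr h.rot)))

lemma Cell.adj' {x y z : V g} (h : Cell x y z) : Adj x z := h.swap.adj

lemma Cell.adj'' {x y z : V g} (h : Cell x y z) : Adj y z := h.rot.swap.adj

/-- Lifting of cells: if `x, y` is a lifted edge of a cell `π x, π y, w`, there is a lift of `w`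
adjacent to both. -/
lemma Cov.third {X : Type*} {π : X → V g} {E : X → X → Prop} (C : Cov π E) {x y : X} {w : V g}
    (h : Cell (π x) (π y) w) (hE : E x y) : ∃ z, π z = w ∧ E x z ∧ E y z := by
  obtain ⟨z, hz, hxz⟩ := C.lift x w h.adj'
  refine ⟨z, hz, hxz, ?_⟩
  rw [← hz] at h
  exact C.cell x y z h hE hxz

end Pool.Agent.H.MP_59b15d_al.PC
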