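import Mathlib

/-!
# Peak reduction
-/

set_option autoImplicit false

namespace Pool.Agent.H.MP_59b15d_al.PC

open Relation

variable {X : Type*}

/-- Peak reduction. `E` is a symmetric relation, `N` a height. (a) the two ends of an edge of positive
height have a common neighbour of smaller height; (b) two smaller neighbours of `x` are joined by a path
below the height of `x`. Then a path between two elements of height zero can be replaced by a path at
height zero. -/
theorem peak (E : X → X → Prop) (hsymm : ∀ x y, E x y → E y x) (N : X → ℕ)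
    (ha : ∀ x y, E x y → N x = N y → 0 < N x → ∃ z, N z < N x ∧ E x z ∧ E z y)
    (hb : ∀ x y z, E x y → E x z → N y < N x → N z < N x →
      ReflTransGen (fun a b => E a b ∧ N a < N x ∧ N b < N x) y z) :
    ∀ x y, ReflTransGen E x y → N x = 0 → N y = 0 →
      ReflTransGen (fun a b => E a b ∧ N a = 0 ∧ N b = 0) x y := by
  -- the levels
  have step : ∀ R : ℕ, 0 < R → ∀ x, N x < R → ∀ y,
      ReflTransGen (fun a b => E a b ∧ N a < R + 1 ∧ N b < R + 1) x y →
      (N y < R → ReflTransGen (fun a b => E a b ∧ N a < R ∧ N b < R) x y) ∧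
      (N y = R → ∃ y', E y y' ∧ N y' < R ∧
        ReflTransGen (fun a b => E a b ∧ N a < R ∧ N b < R) x y') := by
    intro R hR x hx y hxy
    induction hxy with
    | refl => exact ⟨fun _ => ReflTransGen.refl, fun h => absurd h (by omega)⟩
    | @tail y z _ hyz ih =>
      obtain ⟨hE, hy, hz⟩ := hyz
      obtain ⟨ih1, ih2⟩ := ih
      rcases Nat.lt_or_ge (N y) R with hyR | hyR
      · have h1 := ih1 hyR
        refine ⟨fun hzR => h1.tail ⟨hE, hyR, hzR⟩, fun _ => ⟨y, hsymm y z hE, hyR, h1⟩⟩
      · have hyR' : N y = R := by omega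
        obtain ⟨y', hE', hy', h1⟩ := ih2 hyR'
        constructor
        · intro hzR
          have h2 := hb y y' z hE' hE (by omega) (by omega)
          rw [hyR'] at h2
          exact h1.trans h2
        · intro hzR
          obtain ⟨u, hu, hE1, hE2⟩ := ha y z hE (by omega) (by omega)
          have h2 := hb y y' u hE' hE1 (by omega) (by omega)
          rw [hyR'] at h2
          exact ⟨u, hsymm u z hE2, by omega, h1.trans h2⟩
  have down : ∀ R : ℕ, ∀ x y, N x = 0 → N y = 0 →
      ReflTransGen (fun a b => E a b ∧ N a < R + 1 ∧ N b < R + 1) x y →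
      ReflTransGen (fun a b => E a b ∧ N a = 0 ∧ N b = 0) x y := by
    intro R
    induction R with
    | zero =>
      intro x y _ _ h
      refine ReflTransGen.mono ?_ _ _ h
      intro a b hab
      exact ⟨hab.1, by have := hab.2.1; omega, by have := hab.2.2; omega⟩
    | succ R ih =>
      intro x y hx hy h
      exact ih x y hx hy ((step (R + 1) (Nat.succ_pos R) x (by omega) y h).1 (by omega))
  -- a path has bounded height
  have bd : ∀ x y, ReflTransGen E x y →
      ∃ R, ReflTransGen (fun a b => E a b ∧ N a < R + 1 ∧ N b < R + 1) x y := by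
    intro x y h
    induction h with
    | refl => exact ⟨0, ReflTransGen.refl⟩
    | @tail y z _ hyz ih =>
      obtain ⟨R, hR⟩ := ih
      refine ⟨R + N y + N z, (ReflTransGen.mono ?_ _ _ hR).tail ⟨hyz, by omega, by omega⟩⟩
      intro a b hab
      exact ⟨hab.1, by have := hab.2.1; omega, by have := hab.2.2; omega⟩
  intro x y h hx hy
  obtain ⟨R, hR⟩ := bd x y h
  exact down R x y hx hy hR

end Pool.Agent.H.MP_59b15d_al.PC
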