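import Pool.Agent.H.MP_59b15d_al.pc.Defs

/-!
# Linear algebra for the complex of primitive vectors

Primitive parts, the Farey graph, planes, orthogonal complements of hyperbolic pairs, connectivity.
-/

set_option autoImplicit false

namespace Pool.Agent.H.MP_59b15d_al.PC

open SP Relation

variable {g : ℕ}

/-! ## Primitive parts -/

/-- Every nonzero vector is a positive multiple of a primitive vector. -/
theorem exists_prim {x : V g} (hx : x ≠ 0) : ∃ (b : ℤ) (y : V g), 0 < b ∧ Prim y ∧ x = b • y := by
  -- the ideal of the values `om x w`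
  let φ : V g →ₗ[ℤ] ℤ :=
    { toFun := fun w => om x w
      map_add' := fun a b => om_add_right x a b
      map_smul' := fun k a => by rw [om_smul_right]; rfl }
  obtain ⟨b0, hb0⟩ : ∃ b0 : ℤ, LinearMap.range φ = Ideal.span {b0} :=
    (IsPrincipalIdealRing.principal (LinearMap.range φ : Ideal ℤ)).principal
  have hmem : ∀ w, b0 ∣ om x w := by
    intro w
    have h1 : om x w ∈ (LinearMap.range φ : Ideal ℤ) := ⟨w, rfl⟩
    rw [hb0] at h1
    exact Ideal.mem_span_singleton.1 h1
  have hb : b0 ∈ (LinearMap.range φ : Ideal ℤ) := by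
    rw [hb0]
    exact Ideal.mem_span_singleton_self b0
  obtain ⟨w0, hw0⟩ := hb
  have hw0' : om x w0 = b0 := hw0
  have hb0ne : b0 ≠ 0 := by
    intro h0
    apply hx
    funext i
    have h1 := hmem (f i)
    have h2 := hmem (e i)
    rw [h0, zero_dvd_iff] at h1 h2
    rw [om_f] at h1
    rw [om_e] at h2
    exact Prod.ext h1 (by simpa using h2)
  -- division by a nonzero element dividing all values
  have key : ∀ b : ℤ, b ≠ 0 → (∀ w, b ∣ om x w) → (∃ w, om x w = b) →
      ∃ y : V g, Prim y ∧ x = b • y := by
    intro b hb hd hw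
    have h1 : ∀ i, b ∣ (x i).1 := fun i => by
      have := hd (f i)
      rwa [om_f] at this
    have h2 : ∀ i, b ∣ (x i).2 := fun i => by
      have := hd (e i)
      rw [om_e] at this
      exact (dvd_neg.1 this)
    have hxy : x = b • (fun i => ((x i).1 / b, (x i).2 / b) : V g) := by
      funext i
      refine Prod.ext ?_ ?_
      · exact (Int.mul_ediv_cancel' (h1 i)).symm
      · exact (Int.mul_ediv_cancel' (h2 i)).symm
    refine ⟨fun i => ((x i).1 / b, (x i).2 / b), ?_, hxy⟩
    obtain ⟨w, hw⟩ := hw
    refine ⟨w, ?_⟩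
    rw [hxy, om_smul_left] at hw
    exact mul_left_cancel₀ hb (by rw [hw, mul_one])
  rcases lt_or_gt_of_ne hb0ne with h | h
  · obtain ⟨y, hy, hxy⟩ := key (-b0) (neg_ne_zero.2 hb0ne) (fun w => (neg_dvd.2 (hmem w)))
      ⟨-w0, by rw [om_neg_right, hw0']⟩
    exact ⟨-b0, y, by omega, hy, hxy⟩
  · obtain ⟨y, hy, hxy⟩ := key b0 hb0ne hmem ⟨w0, hw0'⟩
    exact ⟨b0, y, h, hy, hxy⟩

/-! ## The Farey graph -/

/-- Steps of the Farey graph: determinant `± 1`. -/
def FStep (a b : ℤ × ℤ) : Prop := a.1 * b.2 - a.2 * b.1 = 1 ∨ a.1 * b.2 - a.2 * b.1 = -1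

theorem farey : ∀ (m : ℕ) (p q : ℤ), q.natAbs ≤ m → IsCoprime p q →
    ReflTransGen FStep (p, q) (1, 0) := by
  intro m
  induction m with
  | zero =>
    intro p q hq h
    have hq0 : q = 0 := by omega
    subst hq0
    have hp : IsUnit p := isCoprime_zero_right.1 h
    rcases Int.isUnit_iff.1 hp with h1 | h1
    · rw [h1]
    · rw [h1]
      refine (ReflTransGen.single ?_).tail (b := (0, 1)) ?_
      · right
        norm_num
      · right
        norm_num
  | succ m ih =>
    intro p q hq h
    rcases Nat.lt_or_ge q.natAbs (m + 1) with h1 | h1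
    · exact ih p q (by omega) h
    · have hq0 : q ≠ 0 := by
        intro h0
        rw [h0] at h1
        simp at h1
      obtain ⟨a, b, hab⟩ := h
      have h2 : a - a / q * q = a % q := by
        have := Int.emod_add_mul_ediv a q
        linear_combination -this
      have h3 := Int.emod_nonneg a hq0
      have h4 := Int.emod_lt_abs a hq0
      have h5 : (a % q).natAbs ≤ m := by
        have : |q| = (q.natAbs : ℤ) := Int.abs_eq_natAbs q
        omega
      have h6 : IsCoprime (-b - a / q * p) (a % q) := by
        refine ⟨-q, p, ?_⟩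
        rw [← h2]
        linear_combination hab
      refine ReflTransGen.head ?_ (ih _ _ h5 h6)
      left
      change p * (a % q) - q * (-b - a / q * p) = 1
      rw [← h2]
      linear_combination hab

theorem farey' {p q : ℤ} (h : IsCoprime p q) : ReflTransGen FStep (p, q) (1, 0) :=
  farey _ p q le_rfl h

theorem FStep.symm {a b : ℤ × ℤ} (h : FStep a b) : FStep b a := by
  rcases h with h | h
  · right
    linear_combination -h
  · left
    linear_combination -h

/-! ## Planes -/

/-- In a plane spanned by an edge of type A the Farey steps are edges of type A. -/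
theorem AdjA.plane {r s : V g} (h : AdjA r s) {a b : ℤ × ℤ} (hab : FStep a b) :
    AdjA (a.1 • r + a.2 • s) (b.1 • r + b.2 • s) := by
  obtain ⟨h0, ⟨r', r1, r2⟩, s', s1, s2⟩ := h
  have h0' : om s r = 0 := by rw [om_swap, h0, neg_zero]
  have e : ∀ (x y u v : ℤ), om (x • r + y • s) (u • r' + v • s') = x * u + y * v := by
    intro x y u v
    rw [om_add_left, om_smul_left, om_smul_left, om_add_right, om_add_right, om_smul_right,
      om_smul_right, om_smul_right, om_smul_right, r1, r2, s1, s2]
    ring
  refine ⟨?_, ?_⟩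
  · rw [om_add_left, om_smul_left, om_smul_left, om_add_right, om_add_right, om_smul_right,
      om_smul_right, om_smul_right, om_smul_right, h0, h0', om_self, om_self]
    ring
  · rcases hab with hab | hab
    · refine ⟨⟨b.2 • r' + (-b.1) • s', ?_, ?_⟩, (-a.2) • r' + a.1 • s', ?_, ?_⟩
      · rw [e]
        linear_combination hab
      · rw [e]
        ring
      · rw [e]
        ring
      · rw [e]
        linear_combination hab
    · refine ⟨⟨(-b.2) • r' + b.1 • s', ?_, ?_⟩, a.2 • r' + (-a.1) • s', ?_, ?_⟩
      · rw [e]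
        linear_combination -hab
      · rw [e]
        ring
      · rw [e]
        ring
      · rw [e]
        linear_combination -hab

/-- In a plane spanned by a hyperbolic pair the Farey steps are edges of type B. -/
theorem planeB {r s : V g} (h : om r s = 1) {a b : ℤ × ℤ} (hab : FStep a b) :
    AdjB (a.1 • r + a.2 • s) (b.1 • r + b.2 • s) := by
  have h' : om s r = -1 := by rw [om_swap, h]
  have e : om (a.1 • r + a.2 • s) (b.1 • r + b.2 • s) = a.1 * b.2 - a.2 * b.1 := by
    rw [om_add_left, om_smul_left, om_smul_left, om_add_right, om_add_right, om_smul_right,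
      om_smul_right, om_smul_right, om_smul_right, h, h', om_self, om_self]
    ring
  unfold AdjB
  rw [e]
  exact hab

/-! ## The orthogonal complement of a hyperbolic pair -/

/-- `x` is orthogonal to `v` and `v'`. -/
def InQ (v v' x : V g) : Prop := om x v = 0 ∧ om x v' = 0

/-- The projection to the orthogonal complement. -/
def prQ (v v' x : V g) : V g := x - om x v' • v + om x v • v'

theorem prQ_mem {v v' : V g} (h : om v v' = 1) (x : V g) : InQ v v' (prQ v v' x) := by
  have h' : om v' v = -1 := by rw [om_swap, h]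
  constructor
  · unfold prQ
    rw [om_add_left, om_sub_left, om_smul_left, om_smul_left, om_self, h']
    ring
  · unfold prQ
    rw [om_add_left, om_sub_left, om_smul_left, om_smul_left, om_self, h]
    ring

theorem prQ_eq (v v' x : V g) : x = prQ v v' x + om x v' • v - om x v • v' := by
  unfold prQ
  abel

/-- Elements of `Q` do not see the difference of `x` and its projection. -/
theorem om_prQ {v v' q : V g} (hq : InQ v v' q) (x : V g) : om q (prQ v v' x) = om q x := by
  unfold prQ
  rw [om_add_right, om_sub_right, om_smul_right, om_smul_right, hq.1, hq.2]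
  ring

theorem InQ.smul_of {v v' y : V g} {b : ℤ} (hb : b ≠ 0) (h : InQ v v' (b • y)) : InQ v v' y := by
  obtain ⟨h1, h2⟩ := h
  rw [om_smul_left] at h1 h2
  exact ⟨(mul_eq_zero.1 h1).resolve_left hb, (mul_eq_zero.1 h2).resolve_left hb⟩

theorem InQ.comb {v v' x y : V g} (hx : InQ v v' x) (hy : InQ v v' y) (s t : ℤ) :
    InQ v v' (s • x + t • y) := by
  constructor
  · rw [om_add_left, om_smul_left, om_smul_left, hx.1, hy.1]
    ring
  · rw [om_add_left, om_smul_left, om_smul_left, hx.2, hy.2]
    ring

/-- A primitive vector of `Q` has a dual vector in `Q`. -/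
theorem InQ.dual {v v' x : V g} (h : om v v' = 1) (hx : InQ v v' x) (hp : Prim x) :
    ∃ w, InQ v v' w ∧ om x w = 1 := by
  obtain ⟨w, hw⟩ := hp
  exact ⟨prQ v v' w, prQ_mem h w, by rw [om_prQ hx, hw]⟩

/-- The primitive part of a nonzero vector of `Q` lies in `Q`. -/
theorem InQ.exists_prim {v v' x : V g} (hx : InQ v v' x) (h0 : x ≠ 0) :
    ∃ (b : ℤ) (y : V g), 0 < b ∧ Prim y ∧ InQ v v' y ∧ x = b • y := by
  obtain ⟨b, y, hb, hy, hxy⟩ := PC.exists_prim h0
  rw [hxy] at hx
  exact ⟨b, y, hb, hy, hx.smul_of hb.ne', hxy⟩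

/-- For `g ≥ 2` there is a hyperbolic pair in `Q`. -/
theorem exists_pair (hg : 2 ≤ g) {v v' : V g} (h : om v v' = 1) :
    ∃ r r', InQ v v' r ∧ InQ v v' r' ∧ om r r' = 1 := by
  have h' : om v' v = -1 := by rw [om_swap, h]
  obtain ⟨x, hx⟩ : ∃ x, prQ v v' x ≠ 0 := by
    by_contra hcon
    push Not at hcon
    -- two indices
    let i : Fin g := ⟨0, by omega⟩
    let j : Fin g := ⟨1, by omega⟩
    have hij : i ≠ j := by
      intro hc
      have := congrArg Fin.val hc
      simp [i, j] at this
    have key : ∀ x y : V g, om x y = om x v' * om v y - om x v * om v' y := by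
      intro x y
      have h1 := prQ_eq v v' x
      rw [hcon x, zero_add] at h1
      have h2 : om x y = om (om x v' • v - om x v • v') y := congrArg (fun z => om z y) h1
      rw [h2, om_sub_left, om_smul_left, om_smul_left]
    have k1 := key (e i) (f i)
    rw [om_e_f] at k1
    have k2 := key (e i) (e j)
    rw [om_e_e] at k2
    have k3 := key (f i) (e j)
    rw [om_f_e_ne hij] at k3
    have k4 := key (e j) (f j)
    rw [om_e_f] at k4
    have s1 : ∀ x : V g, om v x = -om x v := fun x => om_swap v x
    have s2 : ∀ x : V g, om v' x = -om x v' := fun x => om_swap v' x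
    rw [s1, s2] at k1 k2 k3 k4
    have z1 : om (e j) v = 0 := by
      linear_combination (om (e j) v) * k1 - (om (f i) v) * k2 + (om (e i) v) * k3
    have z2 : om (e j) v' = 0 := by
      linear_combination (om (e j) v') * k1 - (om (f i) v') * k2 + (om (e i) v') * k3
    rw [z1, z2] at k4
    simp at k4
  obtain ⟨b, y, -, hy, hyQ, -⟩ := (prQ_mem h x).exists_prim hx
  obtain ⟨w, hw, hyw⟩ := hyQ.dual h hy
  exact ⟨y, w, hyQ, hw, hyw⟩

/-- Cells over edges of `Q`. -/
theorem cell_lift {v v' : V g} (h : om v v' = 1) {a b : V g} (ha : InQ v v' a) (hb : InQ v v' b)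
    (hab : Adj a b) (k l : ℤ) : Cell v (a + k • v) (b + l • v) := by
  have h' : om v' v = -1 := by rw [om_swap, h]
  have ha1 : om v a = 0 := by rw [om_swap, ha.1, neg_zero]
  have hb1 : om v b = 0 := by rw [om_swap, hb.1, neg_zero]
  have e1 : om v (a + k • v) = 0 := by
    rw [om_add_right, om_smul_right, om_self, ha1]
    ring
  have e2 : om v (b + l • v) = 0 := by
    rw [om_add_right, om_smul_right, om_self, hb1]
    ring
  have e3 : om (a + k • v) (b + l • v) = om a b := by
    rw [om_add_left, om_smul_left, e2, om_add_right, om_smul_right, ha.1]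
    ring
  rcases hab with hab | hab
  · obtain ⟨h0, ⟨c, c1, c2⟩, d, d1, d2⟩ := hab
    -- dual vectors orthogonal to `v`
    have p1 : om v (c - om v c • v') = 0 := by
      rw [om_sub_right, om_smul_right, h]
      ring
    have p2 : om a (c - om v c • v') = 1 := by
      rw [om_sub_right, om_smul_right, ha.2, c1]
      ring
    have p3 : om b (c - om v c • v') = 0 := by
      rw [om_sub_right, om_smul_right, hb.2, c2]
      ring
    have q1 : om v (d - om v d • v') = 0 := by
      rw [om_sub_right, om_smul_right, h]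
      ring
    have q2 : om a (d - om v d • v') = 0 := by
      rw [om_sub_right, om_smul_right, ha.2, d1]
      ring
    have q3 : om b (d - om v d • v') = 1 := by
      rw [om_sub_right, om_smul_right, hb.2, d2]
      ring
    generalize c - om v c • v' = c' at p1 p2 p3
    generalize d - om v d • v' = d' at q1 q2 q3
    refine Or.inr (Or.inr (Or.inr (Or.inr ⟨e1, e2, by rw [e3, h0], ?_, ?_, ?_⟩)))
    · refine ⟨v' - k • c' - l • d', ?_, ?_, ?_⟩
      · rw [om_sub_right, om_sub_right, om_smul_right, om_smul_right, h, p1, q1]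
        ring
      · rw [om_add_left, om_smul_left, om_sub_right, om_sub_right, om_smul_right, om_smul_right,
          om_sub_right, om_sub_right, om_smul_right, om_smul_right, h, p1, q1, p2, q2, ha.2]
        ring
      · rw [om_add_left, om_smul_left, om_sub_right, om_sub_right, om_smul_right, om_smul_right,
          om_sub_right, om_sub_right, om_smul_right, om_smul_right, h, p1, q1, p3, q3, hb.2]
        ring
    · refine ⟨c', p1, ?_, ?_⟩
      · rw [om_add_left, om_smul_left, p1, p2]
        ring
      · rw [om_add_left, om_smul_left, p1, p3]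
        ring
    · refine ⟨d', q1, ?_, ?_⟩
      · rw [om_add_left, om_smul_left, q1, q2]
        ring
      · rw [om_add_left, om_smul_left, q1, q3]
        ring
  · refine Or.inr (Or.inl ⟨⟨v', h⟩, e1, e2, ?_⟩)
    unfold AdjB at hab ⊢
    rw [e3]
    exact hab

/-! ## Connectivity -/

/-- Two primitive vectors of `Q` are joined by a path in `Q` (`g ≥ 2`). -/
theorem conn (hg : 2 ≤ g) {v v' : V g} (h : om v v' = 1) {a b : V g} (ha : InQ v v' a)
    (hap : Prim a) (hb : InQ v v' b) (hbp : Prim b) :
    ReflTransGen (fun x y => InQ v v' x ∧ InQ v v' y ∧ Adj x y) a b := by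
  obtain ⟨r, r', hr, hr', hrr⟩ := exists_pair hg h
  have hrr' : om r' r = -1 := by rw [om_swap, hrr]
  -- from a Farey path to a path in a plane
  have plane : ∀ s t : V g, InQ v v' s → InQ v v' t →
      (∀ x y : ℤ × ℤ, FStep x y → Adj (x.1 • s + x.2 • t) (y.1 • s + y.2 • t)) →
      ∀ p q : ℤ, IsCoprime p q →
      ReflTransGen (fun x y => InQ v v' x ∧ InQ v v' y ∧ Adj x y) (p • s + q • t) s := by
    intro s t hs ht hst p q hpq
    have h2 : ReflTransGen (fun x y => InQ v v' x ∧ InQ v v' y ∧ Adj x y)
        (p • s + q • t) ((1 : ℤ) • s + (0 : ℤ) • t) :=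
      ReflTransGen.lift (p := fun x y : V g => InQ v v' x ∧ InQ v v' y ∧ Adj x y)
        (fun x : ℤ × ℤ => x.1 • s + x.2 • t)
        (fun x y hxy => ⟨hs.comb ht _ _, hs.comb ht _ _, hst x y hxy⟩) _ _ (farey' hpq)
    rw [one_smul, zero_smul, add_zero] at h2
    exact h2
  have toR : ∀ a : V g, InQ v v' a → Prim a →
      ReflTransGen (fun x y => InQ v v' x ∧ InQ v v' y ∧ Adj x y) a r := by
    intro a ha hap
    have hBr : ∀ p q : ℤ, IsCoprime p q →
        ReflTransGen (fun x y => InQ v v' x ∧ InQ v v' y ∧ Adj x y) (p • r + q • r') r :=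
      plane r r' hr hr' (fun x y hxy => Or.inr (planeB hrr hxy))
    -- the component in the orthogonal complement of `r, r'`
    have hq := prQ_mem hrr a
    obtain ⟨α, β, hqa'⟩ : ∃ α β : ℤ, a = α • r + β • r' + prQ r r' a := by
      refine ⟨om a r', -om a r, ?_⟩
      rw [neg_smul]
      unfold prQ
      abel
    generalize prQ r r' a = q at hq hqa'
    have hqQ : InQ v v' q := by
      have h1 : q = (1 : ℤ) • a + (-1 : ℤ) • (α • r + β • r') := by
        rw [one_smul, neg_smul, one_smul, hqa']
        abel
      rw [h1]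
      exact ha.comb (hr.comb hr' α β) 1 (-1)
    obtain ⟨w, hw⟩ := hap
    by_cases hq0 : q = 0
    · rw [hq0, add_zero] at hqa'
      have hc : IsCoprime α β := by
        refine ⟨om r w, om r' w, ?_⟩
        rw [hqa', om_add_left, om_smul_left, om_smul_left] at hw
        linear_combination hw
      rw [hqa']
      exact hBr α β hc
    · obtain ⟨d, q1, hd, hq1, hq1r, hqd⟩ := hq.exists_prim hq0
      have hq1Q : InQ v v' q1 := by
        rw [hqd] at hqQ
        exact hqQ.smul_of hd.ne'
      by_cases hαβ : α = 0 ∧ β = 0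
      · -- `a` is orthogonal to `r, r'`
        have haq : a = q := by
          rw [hqa', hαβ.1, hαβ.2, zero_smul, zero_smul, add_zero, zero_add]
        have h1 : InQ r r' a := by rw [haq]; exact hq
        obtain ⟨w1, hw1, haw1⟩ := h1.dual hrr ⟨w, hw⟩
        refine ReflTransGen.single ⟨ha, hr, Or.inl ⟨h1.1, ⟨w1, haw1, ?_⟩, r', h1.2, hrr⟩⟩
        rw [om_swap, hw1.1, neg_zero]
      · -- the primitive part of `α r + β r'`
        obtain ⟨c, α0, β0, hα0, hβ0, hcop⟩ : ∃ c α0 β0 : ℤ, α = c * α0 ∧ β = c * β0 ∧
            IsCoprime α0 β0 := by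
          obtain ⟨c, α0, β0, -, h1, h2, h3⟩ := Int.exists_gcd_one' (m := α) (n := β) (by
            rcases Classical.not_and_iff_not_or_not.1 hαβ with h1 | h1
            · exact Int.gcd_pos_of_ne_zero_left _ h1
            · exact Int.gcd_pos_of_ne_zero_right _ h1)
          exact ⟨c, α0, β0, by rw [h2, mul_comm], by rw [h3, mul_comm],
            Int.isCoprime_iff_gcd_eq_one.2 h1⟩
        have hs : InQ v v' (α0 • r + β0 • r') := hr.comb hr' α0 β0
        have hadj : AdjA (α0 • r + β0 • r') q1 := by
          obtain ⟨w1, hw1, hqw1⟩ := hq1r.dual hrr hq1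
          have j1 : om r q1 = 0 := by rw [om_swap, hq1r.1, neg_zero]
          have j2 : om r' q1 = 0 := by rw [om_swap, hq1r.2, neg_zero]
          have j3 : om r w1 = 0 := by rw [om_swap, hw1.1, neg_zero]
          have j4 : om r' w1 = 0 := by rw [om_swap, hw1.2, neg_zero]
          obtain ⟨x, y, hxy⟩ := hcop
          refine ⟨?_, ⟨x • r' - y • r, ?_, ?_⟩, w1, ?_, hqw1⟩
          · rw [om_add_left, om_smul_left, om_smul_left, j1, j2]
            ring
          · rw [om_add_left, om_smul_left, om_smul_left, om_sub_right, om_sub_right,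
              om_smul_right, om_smul_right, om_smul_right, om_smul_right, om_self, om_self, hrr,
              hrr']
            linear_combination hxy
          · rw [om_sub_right, om_smul_right, om_smul_right, hq1r.1, hq1r.2]
            ring
          · rw [om_add_left, om_smul_left, om_smul_left, j3, j4]
            ring
        have hcd : IsCoprime c d := by
          refine ⟨α0 * om r w + β0 * om r' w, om q1 w, ?_⟩
          rw [hqa', hqd, hα0, hβ0, om_add_left, om_add_left, om_smul_left, om_smul_left,
            om_smul_left] at hw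
          linear_combination hw
        have h1 := plane (α0 • r + β0 • r') q1 hs hq1Q (fun x y hxy => Or.inl (hadj.plane hxy)) c d
          hcd
        have h2 : a = c • (α0 • r + β0 • r') + d • q1 := by
          rw [hqa', ← hqd, hα0, hβ0, smul_add, smul_smul, smul_smul]
        rw [h2]
        exact h1.trans (hBr α0 β0 hcop)
  have hsym : ∀ x y : V g, (InQ v v' x ∧ InQ v v' y ∧ Adj x y) →
      (InQ v v' y ∧ InQ v v' x ∧ Adj y x) := fun x y hxy => ⟨hxy.2.1, hxy.1, hxy.2.2.symm⟩
  refine (toR a ha hap).trans ?_
  have hst : Std.Symm (fun x y : V g => InQ v v' x ∧ InQ v v' y ∧ Adj x y) := ⟨hsym⟩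
  have := hst
  exact Std.Symm.symm _ _ (toR b hb hbp)

end Pool.Agent.H.MP_59b15d_al.PC
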