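import Pool.Agent.H.MP_59b15d_al.pc.Defs

/-!
# The descending link of a vector of level at least two inside `e^⊥`

`e, f` is a hyperbolic pair, the level of `w` in `e^⊥` is `|om w f|`. For a primitive `v` in `e^⊥` of level
at least two, all neighbours of `v` of smaller level are joined inside the set of such neighbours.
-/

set_option autoImplicit false

namespace Pool.Agent.H.MP_59b15d_al.PC

open SP Relation

variable {g : ℕ}

/-- Edges of the Farey graph (with signs). -/
def FE (a b : ℤ × ℤ) : Prop := a.1 * b.2 - a.2 * b.1 = 1 ∨ a.1 * b.2 - a.2 * b.1 = -1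

/-- Euclid's algorithm. -/
theorem farey2 (n : ℕ) : ∀ p q : ℤ, q.natAbs < n → IsCoprime p q →
    ReflTransGen FE (p, q) (1, 0) := by
  induction n with
  | zero => intro p q h; exact absurd h (Nat.not_lt_zero _)
  | succ n ih =>
    intro p q hq hpq
    rcases eq_or_ne q 0 with rfl | hq0
    · have hp : IsUnit p := isCoprime_zero_right.1 hpq
      rcases Int.isUnit_iff.1 hp with rfl | rfl
      · exact ReflTransGen.refl
      · refine (ReflTransGen.single (b := ((0 : ℤ), (1 : ℤ))) ?_).tail ?_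
        · right; norm_num
        · right; norm_num
    · obtain ⟨a, b, hab⟩ := hpq
      have h1 : p * (a % q) - q * (-b - a / q * p) = 1 := by
        have := Int.emod_add_mul_ediv a q
        linear_combination hab + p * this
      refine ReflTransGen.head (b := (-b - a / q * p, a % q)) (Or.inl h1) (ih _ _ ?_ ?_)
      · have h2 := Int.emod_nonneg a hq0
        have h3 := Int.emod_lt_abs a hq0
        rw [Int.abs_eq_natAbs] at h3
        omega
      · exact ⟨-q, p, by linear_combination h1⟩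

theorem farey2' {p q : ℤ} (h : IsCoprime p q) : ReflTransGen FE (p, q) (1, 0) :=
  farey2 _ p q (Nat.lt_succ_self _) h

/-- Primitive part of a vector. -/
lemma prim_part {x : V g} (hx : x ≠ 0) : ∃ (b : ℤ) (y : V g), b ≠ 0 ∧ Prim y ∧ x = b • y := by
  let L : V g →ₗ[ℤ] ℤ := -(omL x)
  have hL : ∀ w, L w = om x w := by
    intro w
    change -(om w x) = om x w
    rw [om_swap x w]
  obtain ⟨b, hb⟩ := (IsPrincipalIdealRing.principal (LinearMap.range L)).principal
  have hdiv : ∀ w, b ∣ om x w := by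
    intro w
    have : om x w ∈ LinearMap.range L := ⟨w, hL w⟩
    rw [hb] at this
    obtain ⟨c, hc⟩ := Ideal.mem_span_singleton'.1 this
    exact ⟨c, by rw [← hc, mul_comm]⟩
  have hb0 : b ≠ 0 := by
    rintro rfl
    refine hx ?_
    refine om_ext fun w => ?_
    have h := hdiv w
    rw [zero_dvd_iff] at h
    rw [om_zero_right, om_swap, h, neg_zero]
  have hbm : ∃ w, om x w = b := by
    have : b ∈ LinearMap.range L := by rw [hb]; exact Ideal.mem_span_singleton_self b
    obtain ⟨w, hw⟩ := this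
    exact ⟨w, by rw [← hL, hw]⟩
  obtain ⟨w, hw⟩ := hbm
  have h1 : ∀ i, b ∣ (x i).1 := fun i => by rw [← om_f]; exact hdiv _
  have h2 : ∀ i, b ∣ (x i).2 := fun i => by
    have := hdiv (e i)
    rw [om_e] at this
    exact (dvd_neg.1 this)
  choose y1 hy1 using h1
  choose y2 hy2 using h2
  have hxy : x = b • (fun i => (y1 i, y2 i) : V g) := by
    funext i
    exact Prod.ext (hy1 i) (hy2 i)
  refine ⟨b, _, hb0, ⟨w, ?_⟩, hxy⟩
  have h3 : b * om (fun i => (y1 i, y2 i) : V g) w = b * 1 := by
    rw [← om_smul_left, ← hxy, hw, mul_one]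
  exact mul_left_cancel₀ hb0 h3

/-- Part of a symplectic basis of rank six. -/
structure Fr (e f u u' r r' : V g) : Prop where
  ef : om e f = 1
  uu : om u u' = 1
  rr : om r r' = 1
  eu : om e u = 0
  er : om e r = 0
  ur : om u r = 0
  eu' : om e u' = 0
  er' : om e r' = 0
  uf : om u f = 0
  ur' : om u r' = 0
  rf : om r f = 0
  ru' : om r u' = 0

lemma Fr.pair {e f u u' r r' : V g} (F : Fr e f u u' r r') (x1 x2 x3 y1 y2 y3 : ℤ) :
    om (x1 • e + x2 • u + x3 • r) (y1 • f + y2 • u' + y3 • r') = x1 * y1 + x2 * y2 + x3 * y3 := by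
  simp only [om_add_left, om_add_right, om_smul_left, om_smul_right, F.ef, F.uu, F.rr, F.eu', F.er',
    F.uf, F.ur', F.rf, F.ru']
  ring

lemma Fr.iso {e f u u' r r' : V g} (F : Fr e f u u' r r') (x1 x2 x3 y1 y2 y3 : ℤ) :
    om (x1 • e + x2 • u + x3 • r) (y1 • e + y2 • u + y3 • r) = 0 := by
  have h1 : om u e = 0 := by rw [om_swap, F.eu, neg_zero]
  have h2 : om r e = 0 := by rw [om_swap, F.er, neg_zero]
  have h3 : om r u = 0 := by rw [om_swap, F.ur, neg_zero]
  simp only [om_add_left, om_add_right, om_smul_left, om_smul_right, om_self, F.eu, F.er, F.ur, h1,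
    h2, h3]
  ring

lemma Fr.iso3 {e f u u' r r' : V g} (F : Fr e f u u' r r') (a1 a2 a3 b1 b2 b3 c1 c2 c3 d : ℤ)
    (hd : d = a1 * (b2 * c3 - b3 * c2) + a2 * (b3 * c1 - b1 * c3) + a3 * (b1 * c2 - b2 * c1))
    (hd1 : d = 1 ∨ d = -1) :
    Iso3 (a1 • e + a2 • u + a3 • r) (b1 • e + b2 • u + b3 • r) (c1 • e + c2 • u + c3 • r) := by
  have hdd : d * d = 1 := by rcases hd1 with h | h <;> rw [h] <;> rfl
  refine ⟨F.iso _ _ _ _ _ _, F.iso _ _ _ _ _ _, F.iso _ _ _ _ _ _, ?_, ?_, ?_⟩
  · refine ⟨(d * (b2 * c3 - b3 * c2)) • f + (d * (b3 * c1 - b1 * c3)) • u' +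
      (d * (b1 * c2 - b2 * c1)) • r', ?_, ?_, ?_⟩
    · rw [F.pair]; linear_combination hdd - d * hd
    · rw [F.pair]; ring
    · rw [F.pair]; ring
  · refine ⟨(d * (c2 * a3 - c3 * a2)) • f + (d * (c3 * a1 - c1 * a3)) • u' +
      (d * (c1 * a2 - c2 * a1)) • r', ?_, ?_, ?_⟩
    · rw [F.pair]; ring
    · rw [F.pair]; linear_combination hdd - d * hd
    · rw [F.pair]; ring
  · refine ⟨(d * (a2 * b3 - a3 * b2)) • f + (d * (a3 * b1 - a1 * b3)) • u' +
      (d * (a1 * b2 - a2 * b1)) • r', ?_, ?_, ?_⟩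
    · rw [F.pair]; ring
    · rw [F.pair]; ring
    · rw [F.pair]; linear_combination hdd - d * hd

/-- Projection to the orthogonal complement of a hyperbolic pair. -/
lemma proj {e f : V g} (hef : om e f = 1) (w : V g) :
    om (w - om w f • e + om w e • f) e = 0 ∧ om (w - om w f • e + om w e • f) f = 0 ∧
      ∀ x, om x e = 0 → om x f = 0 → om x (w - om w f • e + om w e • f) = om x w := by
  have hfe : om f e = -1 := by rw [om_swap, hef]
  refine ⟨?_, ?_, ?_⟩
  · rw [om_add_left, om_sub_left, om_smul_left, om_smul_left, om_self, hfe]; ring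
  · rw [om_add_left, om_sub_left, om_smul_left, om_smul_left, om_self, hef]; ring
  · intro x h1 h2
    rw [om_add_right, om_sub_right, om_smul_right, om_smul_right, h1, h2]; ring

/-- Vectors of `e^⊥` below the level of `v`. -/
def Lo (e f v w : V g) : Prop := om w e = 0 ∧ |om w f| < |om v f|

/-- Edges of the descending link. -/
def DL (e f v w w' : V g) : Prop := Cell v w w' ∧ Lo e f v w ∧ Lo e f v w'

lemma DL.symm {e f v w w' : V g} (h : DL e f v w w') : DL e f v w' w := ⟨h.1.swap, h.2.2, h.2.1⟩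

lemma shiftL {e f v w : V g} (j : ℤ) (hv : Adj v w) (h1 : Lo e f v w) (h2 : Lo e f v (w + j • v)) :
    ReflTransGen (DL e f v) w (w + j • v) := by
  have h3 : |j| < 2 := by
    have e1 : om (w + j • v) f = om w f + j * om v f := by rw [om_add_left, om_smul_left]
    have e2 := h2.2
    rw [e1] at e2
    have e3 : |j| * |om v f| < 2 * |om v f| := by
      rw [← abs_mul]
      calc |j * om v f| = |(om w f + j * om v f) - om w f| := by congr 1; ring
        _ ≤ |om w f + j * om v f| + |om w f| := abs_sub _ _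
        _ < 2 * |om v f| := by linarith [h1.2]
    exact lt_of_mul_lt_mul_right e3 (abs_nonneg _)
  obtain ⟨h4, h5⟩ := abs_lt.1 h3
  obtain rfl | rfl | rfl : j = 0 ∨ j = 1 ∨ j = -1 := by omega
  · rw [zero_smul, add_zero]
  · exact ReflTransGen.single
      ⟨Or.inl ⟨hv, 1, 1, Or.inl rfl, Or.inl rfl, by rw [one_smul, one_smul, add_comm]⟩, h1, h2⟩
  · exact ReflTransGen.single
      ⟨Or.inl ⟨hv, -1, 1, Or.inr rfl, Or.inl rfl, by rw [one_smul, add_comm]⟩, h1, h2⟩

/-- The path in the link in a plane `e, u, r`. -/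
lemma linkF {e f u u' r r' : V g} (F : Fr e f u u' r r') {k c a b : ℤ} (hdet : k * b - c * a = 1)
    (ha : 0 ≤ a) (hak : a < |k|) {p q j : ℤ} (hpq : IsCoprime p q)
    (hA : Adj (k • e + c • u) (p • (a • e + b • u) + q • r + j • (k • e + c • u)))
    (hL : Lo e f (k • e + c • u) (p • (a • e + b • u) + q • r + j • (k • e + c • u))) :
    ReflTransGen (DL e f (k • e + c • u)) (p • (a • e + b • u) + q • r + j • (k • e + c • u))
      (a • e + b • u) := by
  have hk0 : k ≠ 0 := by
    rintro rfl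
    rw [abs_zero] at hak
    omega
  have hue : om u e = 0 := by rw [om_swap, F.eu, neg_zero]
  have hre : om r e = 0 := by rw [om_swap, F.er, neg_zero]
  have hvf : om (k • e + c • u) f = k := by
    rw [om_add_left, om_smul_left, om_smul_left, F.ef, F.uf]; ring
  let Lf : ℤ × ℤ → V g := fun x =>
    x.1 • (a • e + b • u) + x.2 • r + (-(x.1 * a / k)) • (k • e + c • u)
  have hLo : ∀ x, Lo e f (k • e + c • u) (Lf x) := by
    intro x
    constructor
    · simp only [Lf, om_add_left, om_smul_left, om_self, hue, hre]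
      ring
    · have h1 : om (Lf x) f = x.1 * a % k := by
        simp only [Lf, om_add_left, om_smul_left, F.ef, F.uf, F.rf]
        have := Int.emod_add_mul_ediv (x.1 * a) k
        linear_combination -this
      rw [h1, hvf, abs_of_nonneg (Int.emod_nonneg _ hk0)]
      exact Int.emod_lt_abs _ hk0
  have hstep : ∀ x y, FE x y → DL e f (k • e + c • u) (Lf x) (Lf y) := by
    intro x y hxy
    refine ⟨Or.inr (Or.inr (Or.inr (Or.inr ?_))), hLo x, hLo y⟩
    have e0 : k • e + c • u = k • e + c • u + (0 : ℤ) • r := by module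
    have e1 : Lf x = (x.1 * a - x.1 * a / k * k) • e + (x.1 * b - x.1 * a / k * c) • u + x.2 • r := by
      simp only [Lf]; module
    have e2 : Lf y = (y.1 * a - y.1 * a / k * k) • e + (y.1 * b - y.1 * a / k * c) • u + y.2 • r := by
      simp only [Lf]; module
    rw [e0, e1, e2]
    refine F.iso3 _ _ _ _ _ _ _ _ _ (x.1 * y.2 - x.2 * y.1) ?_ hxy
    linear_combination (-(x.1 * y.2 - x.2 * y.1)) * hdet
  have h10 : Lf (1, 0) = a • e + b • u := by
    have h1 : (1 : ℤ) * a / k = 0 := by rw [one_mul]; exact Int.ediv_eq_zero_of_lt_abs ha hak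
    simp only [Lf, h1]
    module
  have hpath : ReflTransGen (DL e f (k • e + c • u)) (Lf (p, q)) (Lf (1, 0)) :=
    ReflTransGen.lift Lf hstep _ _ (farey2' hpq)
  rw [h10] at hpath
  have h2 : Lf (p, q) = (p • (a • e + b • u) + q • r + j • (k • e + c • u)) +
      (-(p * a / k) - j) • (k • e + c • u) := by
    simp only [Lf]; module
  have h3 := hLo (p, q)
  rw [h2] at h3
  have h4 := shiftL _ hA hL h3
  rw [← h2] at h4
  exact h4.trans hpath

end Pool.Agent.H.MP_59b15d_al.PC
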