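import Pool.Agent.H.MP_59b15d_al.pc.Link2

/-!
# The descending link of a vector of level at least two inside `e^⊥`, end
-/

set_option autoImplicit false

namespace Pool.Agent.H.MP_59b15d_al.PC

open SP Relation

variable {g : ℕ}

lemma adj_shift {v w : V g} (t : ℤ) (h : Adj v w) : Adj v (w + t • v) := by
  rcases h with ⟨h0, ⟨a, a1, a2⟩, b, b1, b2⟩ | h
  · left
    refine ⟨?_, ⟨a - t • b, ?_, ?_⟩, b, b1, ?_⟩
    · rw [om_add_right, om_smul_right, om_self, h0]; ring
    · rw [om_sub_right, om_smul_right, a1, b1]; ring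
    · rw [om_add_left, om_smul_left, om_sub_right, om_sub_right, om_smul_right, om_smul_right, a1,
        a2, b1, b2]
      ring
    · rw [om_add_left, om_smul_left, b1, b2]; ring
  · right
    unfold AdjB at h ⊢
    rw [om_add_right, om_smul_right, om_self, mul_zero, add_zero]
    exact h

/-- The link, vectors in the plane `e, u`. -/
lemma linkE {e f u : V g} (hef : om e f = 1) (hue : om u e = 0) (huf : om u f = 0) {k c a b : ℤ}
    (ha : 0 < a) (hak : a < |k|) {w : V g} {p j : ℤ} (hp : p = 1 ∨ p = -1)
    (hw : w = p • (a • e + b • u) + j • (k • e + c • u))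
    (hA : Adj (k • e + c • u) w) (hL : Lo e f (k • e + c • u) w) :
    ReflTransGen (DL e f (k • e + c • u)) w (a • e + b • u) := by
  have hvf : om (k • e + c • u) f = k := by
    rw [om_add_left, om_smul_left, om_smul_left, hef, huf]; ring
  have h0 : Lo e f (k • e + c • u) (a • e + b • u) := by
    refine ⟨by rw [om_add_left, om_smul_left, om_smul_left, om_self, hue]; ring, ?_⟩
    rw [hvf, om_add_left, om_smul_left, om_smul_left, hef, huf]
    rw [mul_one, mul_zero, add_zero, abs_of_pos ha]
    exact hak
  rcases hp with rfl | rfl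
  · have h1 : a • e + b • u = w + (-j) • (k • e + c • u) := by rw [hw]; module
    have h2 := shiftL (-j) hA hL (h1 ▸ h0)
    rw [← h1] at h2
    exact h2
  · obtain ⟨s, hs, hsk⟩ : ∃ s : ℤ, (s = 1 ∨ s = -1) ∧ s * k = |k| := by
      rcases abs_choice k with h | h
      · exact ⟨1, Or.inl rfl, by rw [h, one_mul]⟩
      · exact ⟨-1, Or.inr rfl, by rw [h]; ring⟩
    have h1 : -(a • e + b • u) + s • (k • e + c • u) = w + (s - j) • (k • e + c • u) := by
      rw [hw]; module
    have h2 : Lo e f (k • e + c • u) (w + (s - j) • (k • e + c • u)) := by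
      rw [← h1]
      refine ⟨?_, ?_⟩
      · simp only [om_add_left, om_neg_left, om_smul_left, om_self, hue]; ring
      · have e1 : om (-(a • e + b • u) + s • (k • e + c • u)) f = |k| - a := by
          simp only [om_add_left, om_neg_left, om_smul_left, hef, huf]
          linear_combination hsk
        rw [hvf, e1, abs_of_pos (by linarith)]
        linarith
    have h3 := shiftL (s - j) hA hL h2
    refine h3.tail ⟨Or.inl ⟨adj_shift _ hA, s, -1, hs, Or.inr rfl, ?_⟩, h2, h0⟩
    rw [← h1]
    module

theorem link2 {e f v : V g} (hef : om e f = 1) (hv : Prim v) (hve : om v e = 0)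
    (hR : 2 ≤ |om v f|) :
    ∃ w0, ∀ w, Adj v w → Lo e f v w → ReflTransGen (DL e f v) w w0 := by
  obtain ⟨k, hk⟩ : ∃ k, k = om v f := ⟨_, rfl⟩
  rw [← hk] at hR
  have hk0 : k ≠ 0 := by rintro rfl; rw [abs_zero] at hR; omega
  -- v = k e + c u
  have hne : v - k • e ≠ 0 := by
    intro h
    rw [sub_eq_zero] at h
    obtain ⟨w, hw⟩ := hv
    rw [h, om_smul_left] at hw
    have : |k| = 1 := by
      rcases Int.eq_one_or_neg_one_of_mul_eq_one hw with h | h <;> rw [h] <;> rfl
    omega
  obtain ⟨c, u, hc0, hu, hcu⟩ := prim_part hne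
  have hvk : v = k • e + c • u := by rw [← hcu]; module
  have hue : om u e = 0 := by
    have h1 : c * om u e = 0 := by
      rw [← om_smul_left, ← hcu, om_sub_left, om_smul_left, om_self, hve]; ring
    exact (mul_eq_zero.1 h1).resolve_left hc0
  have huf : om u f = 0 := by
    have h1 : c * om u f = 0 := by
      rw [← om_smul_left, ← hcu, om_sub_left, om_smul_left, hef, ← hk]; ring
    exact (mul_eq_zero.1 h1).resolve_left hc0
  have heu : om e u = 0 := by rw [om_swap, hue, neg_zero]
  obtain ⟨u0, hu0⟩ := hu
  obtain ⟨p1, p2, p3⟩ := proj hef u0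
  obtain ⟨u', hu'⟩ : ∃ u', u' = u0 - om u0 f • e + om u0 e • f := ⟨_, rfl⟩
  rw [← hu'] at p1 p2 p3
  have huu' : om u u' = 1 := by rw [p3 u hue huf, hu0]
  have heu' : om e u' = 0 := by rw [om_swap, p1, neg_zero]
  -- the base vector
  obtain ⟨z, hz⟩ := hv
  rw [hvk, om_add_left, om_smul_left, om_smul_left] at hz
  obtain ⟨a, haa⟩ : ∃ a, a = (-om u z) % k := ⟨_, rfl⟩
  obtain ⟨b, hbb⟩ : ∃ b, b = om e z - c * ((-om u z) / k) := ⟨_, rfl⟩
  have hdet : k * b - c * a = 1 := by
    have := Int.emod_add_mul_ediv (-om u z) k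
    rw [haa, hbb]
    linear_combination hz - c * this
  have ha0 : 0 ≤ a := by rw [haa]; exact Int.emod_nonneg _ hk0
  have hak : a < |k| := by rw [haa]; exact Int.emod_lt_abs _ hk0
  have hapos : 0 < a := by
    rcases ha0.lt_or_eq with h | h
    · exact h
    · exfalso
      rw [← h, mul_zero, sub_zero] at hdet
      have : |k| = 1 := by
        rcases Int.eq_one_or_neg_one_of_mul_eq_one hdet with h | h <;> rw [h] <;> rfl
      omega
  have hvf : om (k • e + c • u) f = k := by
    rw [om_add_left, om_smul_left, om_smul_left, hef, huf]; ring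
  refine ⟨a • e + b • u, ?_⟩
  rw [hvk]
  -- neighbours of type A
  have hA : ∀ w, AdjA (k • e + c • u) w → Lo e f (k • e + c • u) w →
      ReflTransGen (DL e f (k • e + c • u)) w (a • e + b • u) := by
    intro w hw hL
    have hwe : om e w = 0 := by rw [om_swap, hL.1, neg_zero]
    have huw : om u w = 0 := by
      have h1 := hw.1
      rw [om_add_left, om_smul_left, om_smul_left, hwe, mul_zero, zero_add] at h1
      exact (mul_eq_zero.1 h1).resolve_left hc0
    obtain ⟨l, hl⟩ : ∃ l, l = om w f := ⟨_, rfl⟩
    obtain ⟨y, hy⟩ : ∃ y, y = om w u' := ⟨_, rfl⟩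
    obtain ⟨w2, hw2⟩ : ∃ w2, w2 = w - l • e - y • u := ⟨_, rfl⟩
    have h2e : om w2 e = 0 := by
      rw [hw2, om_sub_left, om_sub_left, om_smul_left, om_smul_left, om_self, hue, hL.1]; ring
    have h2f : om w2 f = 0 := by
      rw [hw2, om_sub_left, om_sub_left, om_smul_left, om_smul_left, hef, huf, ← hl]; ring
    have h2u : om w2 u = 0 := by
      rw [hw2, om_sub_left, om_sub_left, om_smul_left, om_smul_left, om_self, heu, om_swap w u, huw]
      ring
    have h2u' : om w2 u' = 0 := by
      rw [hw2, om_sub_left, om_sub_left, om_smul_left, om_smul_left, huu', heu', ← hy]; ring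
    -- the coefficient of the base vector
    obtain ⟨p, hp⟩ : ∃ p, p = k * y - c * l := ⟨_, rfl⟩
    obtain ⟨j, hj⟩ : ∃ j, j = l * b - y * a := ⟨_, rfl⟩
    have hlp : l = p * a + j * k := by
      rw [hp, hj]; linear_combination (-l) * hdet
    have hyp : y = p * b + j * c := by
      rw [hp, hj]; linear_combination (-y) * hdet
    have hww : w = p • (a • e + b • u) + w2 + j • (k • e + c • u) := by
      rw [hw2, hlp, hyp]; module
    obtain ⟨t, t1, t2⟩ := hw.2.2
    rw [hww, om_add_left, om_add_left, om_smul_left, om_smul_left j, t1, mul_zero, add_zero] at t2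
    by_cases h20 : w2 = 0
    · rw [h20, om_zero_left, add_zero] at t2
      rw [h20, add_zero] at hww
      have hp1 : p = 1 ∨ p = -1 := Int.eq_one_or_neg_one_of_mul_eq_one t2
      exact linkE hef hue huf hapos hak hp1 hww (Or.inl hw) hL
    · obtain ⟨q, r, hq0, hr, hqr⟩ := prim_part h20
      have hre : om r e = 0 := by
        have h1 : q * om r e = 0 := by rw [← om_smul_left, ← hqr, h2e]
        exact (mul_eq_zero.1 h1).resolve_left hq0
      have hrf : om r f = 0 := by
        have h1 : q * om r f = 0 := by rw [← om_smul_left, ← hqr, h2f]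
        exact (mul_eq_zero.1 h1).resolve_left hq0
      have hru : om r u = 0 := by
        have h1 : q * om r u = 0 := by rw [← om_smul_left, ← hqr, h2u]
        exact (mul_eq_zero.1 h1).resolve_left hq0
      have hru' : om r u' = 0 := by
        have h1 : q * om r u' = 0 := by rw [← om_smul_left, ← hqr, h2u']
        exact (mul_eq_zero.1 h1).resolve_left hq0
      obtain ⟨r0, hr0⟩ := hr
      obtain ⟨q1, q2, q3⟩ := proj hef r0
      obtain ⟨r1, hr1⟩ : ∃ r1, r1 = r0 - om r0 f • e + om r0 e • f := ⟨_, rfl⟩
      rw [← hr1] at q1 q2 q3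
      obtain ⟨s1, s2, s3⟩ := proj huu' r1
      obtain ⟨r', hr'⟩ : ∃ r', r' = r1 - om r1 u' • u + om r1 u • u' := ⟨_, rfl⟩
      rw [← hr'] at s1 s2 s3
      have F : Fr e f u u' r r' :=
        { ef := hef
          uu := huu'
          rr := by rw [s3 r hru hru', q3 r hre hrf, hr0]
          eu := heu
          er := by rw [om_swap, hre, neg_zero]
          ur := by rw [om_swap, hru, neg_zero]
          eu' := heu'
          er' := by
            rw [hr', om_add_right, om_sub_right, om_smul_right, om_smul_right, heu, heu',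
              om_swap e r1, q1]
            ring
          uf := huf
          ur' := by rw [om_swap, s1, neg_zero]
          rf := hrf
          ru' := hru' }
      rw [hqr] at t2 hww
      rw [om_smul_left] at t2
      have hpq : IsCoprime p q := ⟨om (a • e + b • u) t, om r t, by linear_combination t2⟩
      rw [hww] at hL hw ⊢
      exact linkF F hdet ha0 hak hpq (Or.inl hw) hL
  intro w hw hL
  rcases hw with hw | hw
  · exact hA w hw hL
  · -- type B: `e` is a common neighbour
    have hep : Prim e := ⟨f, hef⟩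
    have h1 : Cell (k • e + c • u) w e := by
      refine Or.inr (Or.inr (Or.inr (Or.inl ⟨hep, ?_, ?_, hw⟩)))
      · rw [om_add_right, om_smul_right, om_smul_right, om_self, heu]; ring
      · rw [om_swap, hL.1, neg_zero]
    have h2 : Lo e f (k • e + c • u) e := by
      refine ⟨om_self e, ?_⟩
      rw [hef, hvf, abs_one]
      omega
    refine ReflTransGen.head ⟨h1, hL, h2⟩ (hA e ?_ h2)
    have h3 := h1.adj'
    rcases h3 with h3 | h3
    · exact h3
    · exfalso
      have h4 : om (k • e + c • u) e = 0 := by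
        rw [om_add_left, om_smul_left, om_smul_left, om_self, hue]; ring
      rcases h3 with h3 | h3 <;> rw [h4] at h3
      · exact zero_ne_one h3
      · omega

end Pool.Agent.H.MP_59b15d_al.PC
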