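import Pool.Agent.H.MP_59b15d_al.pc.Step2

/-!
# Coverings of the complex of primitive vectors are trivial
-/

set_option autoImplicit false

namespace Pool.Agent.H.MP_59b15d_al.PC

open SP Relation

variable {g : ℕ}

/-- The complex of primitive vectors of `Z^{2g}` is simply connected for `g ≥ 2`: a covering is
injective on its connected components. -/
theorem Cov.inj {X : Type*} {π : X → V g} {E : X → X → Prop} (hg : 2 ≤ g) (C : Cov π E) {x y : X}
    (h : ReflTransGen E x y) (hxy : π x = π y) : x = y := by
  by_cases hne : x = y
  · exact hne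
  -- the common value is primitive
  have hp : Prim (π x) := by
    rcases ReflTransGen.cases_head h with h1 | ⟨z, h1, -⟩
    · exact absurd h1 hne
    · exact (C.adj x z h1).left
  obtain ⟨f, hef⟩ := hp
  obtain ⟨e, he⟩ : ∃ e, e = π x := ⟨_, rfl⟩
  rw [← he] at hef hxy
  have h1 := step1 hg C e h (by rw [← he, om_self]) (by rw [← hxy, om_self])
  have h2 := step2 hg C hef h1 he.symm hxy.symm
  -- the cone
  have key : ∀ z, ReflTransGen (fun a b => E a b ∧ (om (π a) e = 0 ∧ (π a = e ∨ om (π a) f = 0)) ∧
      (om (π b) e = 0 ∧ (π b = e ∨ om (π b) f = 0))) x z →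
      z = x ∨ (om (π z) e = 0 ∧ om (π z) f = 0 ∧ E z x) := by
    intro z hz
    induction hz with
    | refl => exact Or.inl rfl
    | @tail a b _ hab ih =>
      obtain ⟨hE, ⟨hae, haf⟩, hbe, hbf⟩ := hab
      rcases ih with rfl | ⟨h3, h4, h5⟩
      · -- from the apex
        right
        rcases hbf with hbf | hbf
        · exfalso
          have h3 := C.adj a b hE
          rw [hbf, ← he] at h3
          rcases h3 with ⟨-, ⟨c, c1, c2⟩, -⟩ | h3
          · rw [c1] at c2
            exact one_ne_zero c2
          · unfold AdjB at h3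
            rw [om_self] at h3
            omega
        · exact ⟨hbe, hbf, C.symm _ _ hE⟩
      · rcases hbf with hbf | hbf
        · -- back to the apex
          left
          exact C.uniq a b x hE h5 (by rw [hbf, he])
        · right
          refine ⟨hbe, hbf, C.cell a b x ?_ hE h5⟩
          rw [← he]
          have h6 := cell_lift hef (a := π a) (b := π b) ⟨h3, h4⟩ ⟨hbe, hbf⟩ (C.adj a b hE) 0 0
          simp only [zero_smul, add_zero] at h6
          exact h6.rot.swap
  rcases key y h2 with h3 | ⟨-, h4, -⟩
  · exact h3.symm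
  · exfalso
    rw [← hxy, hef] at h4
    exact one_ne_zero h4

end Pool.Agent.H.MP_59b15d_al.PC
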