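import Pool.Agent.H.MP_59b15d_al.pc.Lin
import Pool.Agent.H.MP_59b15d_al.pc.Peak

/-!
# Step 1: reduction to the orthogonal complement of a vector
-/

set_option autoImplicit false

namespace Pool.Agent.H.MP_59b15d_al.PC

open SP Relation

variable {g : ℕ}

/-- Paths in the link of `π x` lift to paths. -/
theorem Cov.link {X : Type*} {π : X → V g} {E : X → X → Prop} (C : Cov π E) {x y z : X}
    (hy : E x y) (hz : E x z) (S : V g → Prop)
    (h : ReflTransGen (fun a b => Cell (π x) a b ∧ S a ∧ S b) (π y) (π z)) :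
    ReflTransGen (fun a b => E a b ∧ S (π a) ∧ S (π b)) y z := by
  have key : ∀ w : V g, ReflTransGen (fun a b => Cell (π x) a b ∧ S a ∧ S b) (π y) w →
      ∃ z', π z' = w ∧ E x z' ∧ ReflTransGen (fun a b => E a b ∧ S (π a) ∧ S (π b)) y z' := by
    intro w hw
    induction hw with
    | refl => exact ⟨y, rfl, hy, ReflTransGen.refl⟩
    | @tail b c _ hbc ih =>
      obtain ⟨z', hz', hE, hp⟩ := ih
      obtain ⟨hc, hb', hc'⟩ := hbc
      rw [← hz'] at hc hb'
      obtain ⟨z'', h1, h2, h3⟩ := C.third hc hE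
      exact ⟨z'', h1, h2, hp.tail ⟨h3, hb', by rw [h1]; exact hc'⟩⟩
  obtain ⟨z', h1, h2, h3⟩ := key _ h
  have h4 : z' = z := C.uniq x z' z h2 hz h1
  rw [← h4]
  exact h3

/-- The two ends of an edge with the same height have a common neighbour in the orthogonal complement
of `ε`. -/
theorem edge_low {ε v w : V g} (h : Adj v w) (hN : (om v ε).natAbs = (om w ε).natAbs) :
    ∃ z, Cell v w z ∧ om z ε = 0 := by
  rcases Int.natAbs_eq_natAbs_iff.1 hN with h1 | h1
  · refine ⟨(1 : ℤ) • v + (-1 : ℤ) • w, Or.inl ⟨h, 1, -1, Or.inl rfl, Or.inr rfl, rfl⟩, ?_⟩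
    rw [om_add_left, om_smul_left, om_smul_left, h1]
    ring
  · refine ⟨(1 : ℤ) • v + (1 : ℤ) • w, Or.inl ⟨h, 1, 1, Or.inl rfl, Or.inl rfl, rfl⟩, ?_⟩
    rw [om_add_left, om_smul_left, om_smul_left, h1]
    ring

/-- The lift of a vector of `Q` to a vector of small height. -/
def low (ε v a : V g) : V g := a + (-(om a ε / om v ε)) • v

theorem low_lt {ε v : V g} (hv : om v ε ≠ 0) (a : V g) :
    (om (low ε v a) ε).natAbs < (om v ε).natAbs := by
  have h1 : om (low ε v a) ε = om a ε % om v ε := by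
    unfold low
    rw [om_add_left, om_smul_left]
    have := Int.emod_add_mul_ediv (om a ε) (om v ε)
    linear_combination -this
  rw [h1]
  have h3 := Int.emod_nonneg (om a ε) hv
  have h4 := Int.emod_lt_abs (om a ε) hv
  have : |om v ε| = ((om v ε).natAbs : ℤ) := Int.abs_eq_natAbs _
  omega

/-- A neighbour of type A decomposes. -/
theorem AdjA.decomp {v v' x : V g} (h : om v v' = 1) (hx : AdjA v x) :
    ∃ (q : V g) (k : ℤ), InQ v v' q ∧ Prim q ∧ x = q + k • v := by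
  obtain ⟨h0, -, b, b1, b2⟩ := hx
  have h0' : om x v = 0 := by rw [om_swap, h0, neg_zero]
  refine ⟨x - om x v' • v, om x v', ⟨?_, ?_⟩, ⟨b, ?_⟩, ?_⟩
  · rw [om_sub_left, om_smul_left, h0', om_self]
    ring
  · rw [om_sub_left, om_smul_left, h]
    ring
  · rw [om_sub_left, om_smul_left, b1, b2]
    ring
  · abel

/-- The link lemma for neighbours of type A. -/
theorem link_A (hg : 2 ≤ g) {ε v : V g} (hv : om v ε ≠ 0) {x y : V g} (hx : AdjA v x)
    (hy : AdjA v y) (hxN : (om x ε).natAbs < (om v ε).natAbs)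
    (hyN : (om y ε).natAbs < (om v ε).natAbs) :
    ReflTransGen (fun a b => Cell v a b ∧ (om a ε).natAbs < (om v ε).natAbs ∧
      (om b ε).natAbs < (om v ε).natAbs) x y := by
  obtain ⟨v', h⟩ := hx.2.left
  obtain ⟨q, k, hq, hqp, hxq⟩ := hx.decomp h
  obtain ⟨r, l, hr, hrp, hyr⟩ := hy.decomp h
  obtain ⟨q', hq', hqq'⟩ := hq.dual h hqp
  obtain ⟨r', hr', hrr'⟩ := hr.dual h hrp
  have hq'p : Prim q' := AdjB.right (Or.inl hqq')
  have hr'p : Prim r' := AdjB.right (Or.inl hrr')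
  have h1 := conn hg h hq' hq'p hr' hr'p
  have h2 : ReflTransGen (fun a b => Cell v a b ∧ (om a ε).natAbs < (om v ε).natAbs ∧
      (om b ε).natAbs < (om v ε).natAbs) (low ε v q') (low ε v r') := by
    refine ReflTransGen.lift (low ε v) ?_ _ _ h1
    intro a b hab
    exact ⟨cell_lift h hab.1 hab.2.1 hab.2.2 _ _, low_lt hv a, low_lt hv b⟩
  refine ReflTransGen.head (b := low ε v q') ⟨?_, hxN, low_lt hv q'⟩ (h2.tail ⟨?_, low_lt hv r', hyN⟩)
  · rw [hxq]
    exact cell_lift h hq hq' (Or.inr (Or.inl hqq')) _ _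
  · rw [hyr]
    exact cell_lift h hr' hr (Or.inr (AdjB.symm (Or.inl hrr'))) _ _

/-- A neighbour of type B is joined to a neighbour of type A orthogonal to `ε`. -/
theorem link_B (hg : 2 ≤ g) (ε : V g) {v x : V g} (hx : AdjB v x) :
    ∃ u, AdjA v u ∧ Cell v x u ∧ om u ε = 0 := by
  -- the hyperbolic pair
  obtain ⟨s, hs, hvs⟩ : ∃ s : ℤ, (s = 1 ∨ s = -1) ∧ om v (s • x) = 1 := by
    rcases hx with h | h
    · exact ⟨1, Or.inl rfl, by rw [om_smul_right, h, mul_one]⟩
    · exact ⟨-1, Or.inr rfl, by rw [om_smul_right, h]; rfl⟩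
  have hs0 : s ≠ 0 := by rcases hs with h | h <;> rw [h] <;> decide
  obtain ⟨u, hu, hup, hue⟩ : ∃ u, InQ v (s • x) u ∧ Prim u ∧ om u ε = 0 := by
    by_cases h0 : prQ v (s • x) ε = 0
    · obtain ⟨r, r', hr, -, hrr⟩ := exists_pair hg hvs
      refine ⟨r, hr, ⟨r', hrr⟩, ?_⟩
      rw [← om_prQ hr, h0, om_zero_right]
    · obtain ⟨b, u, -, hup, hu, hb⟩ := (prQ_mem hvs ε).exists_prim h0
      refine ⟨u, hu, hup, ?_⟩
      rw [← om_prQ hu, hb, om_smul_right, om_self, mul_zero]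
  have hux : om u x = 0 := by
    have := hu.2
    rw [om_smul_right] at this
    exact (mul_eq_zero.1 this).resolve_left hs0
  have ho : Orth u v x := ⟨hup, hu.1, hux, hx⟩
  exact ⟨u, ho.adjA.symm, Or.inr (Or.inr (Or.inr (Or.inl ho))), hue⟩

/-- The link lemma. -/
theorem link_all (hg : 2 ≤ g) {ε v : V g} (hv : om v ε ≠ 0) {x y : V g} (hx : Adj v x)
    (hy : Adj v y) (hxN : (om x ε).natAbs < (om v ε).natAbs)
    (hyN : (om y ε).natAbs < (om v ε).natAbs) :
    ReflTransGen (fun a b => Cell v a b ∧ (om a ε).natAbs < (om v ε).natAbs ∧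
      (om b ε).natAbs < (om v ε).natAbs) x y := by
  have hpos : 0 < (om v ε).natAbs := Int.natAbs_pos.2 hv
  have red : ∀ x : V g, Adj v x → (om x ε).natAbs < (om v ε).natAbs →
      ∃ u, AdjA v u ∧ (om u ε).natAbs < (om v ε).natAbs ∧
        ReflTransGen (fun a b => Cell v a b ∧ (om a ε).natAbs < (om v ε).natAbs ∧
          (om b ε).natAbs < (om v ε).natAbs) x u ∧
        ReflTransGen (fun a b => Cell v a b ∧ (om a ε).natAbs < (om v ε).natAbs ∧
          (om b ε).natAbs < (om v ε).natAbs) u x := by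
    intro x hx hxN
    rcases hx with hx | hx
    · exact ⟨x, hx, hxN, ReflTransGen.refl, ReflTransGen.refl⟩
    · obtain ⟨u, h1, h2, h3⟩ := link_B hg ε hx
      have h4 : (om u ε).natAbs < (om v ε).natAbs := by
        rw [h3]
        exact hpos
      exact ⟨u, h1, h4, ReflTransGen.single ⟨h2, hxN, h4⟩, ReflTransGen.single ⟨h2.swap, h4, hxN⟩⟩
  obtain ⟨u, hu1, hu2, hu3, -⟩ := red x hx hxN
  obtain ⟨w, hw1, hw2, -, hw3⟩ := red y hy hyN
  exact (hu3.trans (link_A hg hv hu1 hw1 hu2 hw2)).trans hw3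

/-- Step 1. -/
theorem step1 {X : Type*} {π : X → V g} {E : X → X → Prop} (hg : 2 ≤ g) (C : Cov π E) (ε : V g)
    {x y : X} (h : ReflTransGen E x y) (hx : om (π x) ε = 0) (hy : om (π y) ε = 0) :
    ReflTransGen (fun a b => E a b ∧ om (π a) ε = 0 ∧ om (π b) ε = 0) x y := by
  have h1 := peak E C.symm (fun x => (om (π x) ε).natAbs) ?_ ?_ x y h
    (by rw [hx]; rfl) (by rw [hy]; rfl)
  · refine ReflTransGen.mono ?_ _ _ h1
    intro a b hab
    exact ⟨hab.1, Int.natAbs_eq_zero.1 hab.2.1, Int.natAbs_eq_zero.1 hab.2.2⟩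
  · intro x y hE hN hpos
    obtain ⟨z, hz, hz0⟩ := edge_low (ε := ε) (C.adj x y hE) hN
    obtain ⟨z', h1, h2, h3⟩ := C.third hz hE
    refine ⟨z', ?_, h2, C.symm _ _ h3⟩
    have hz' : om (π z') ε = 0 := by rw [h1, hz0]
    simp only [hz', Int.natAbs_zero]
    exact hpos
  · intro x y z hy hz hyN hzN
    have hv : om (π x) ε ≠ 0 := by
      intro h0
      simp only [h0, Int.natAbs_zero] at hyN
      omega
    exact C.link hy hz (fun a => (om a ε).natAbs < (om (π x) ε).natAbs)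
      (link_all hg hv (C.adj x y hy) (C.adj x z hz) hyN hzN)

end Pool.Agent.H.MP_59b15d_al.PC
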