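import Pool.Agent.H.MP_59b15d_al.pc.Link3
import Pool.Agent.H.MP_59b15d_al.pc.Step1

/-!
# Step 2: reduction to `e` and the orthogonal complement of `e, f`
-/

set_option autoImplicit false

namespace Pool.Agent.H.MP_59b15d_al.PC

open SP Relation

variable {g : ℕ}

lemma rtg_symm {α : Type*} {r : α → α → Prop} (hr : ∀ x y, r x y → r y x) {x y : α}
    (h : ReflTransGen r x y) : ReflTransGen r y x := by
  induction h with
  | refl => exact ReflTransGen.refl
  | tail _ hbc ih => exact ReflTransGen.head (hr _ _ hbc) ih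

/-- The level in `e^⊥`. -/
noncomputable def N2 {X : Type*} (π : X → V g) (e f : V g) (a : X) : ℕ :=
  haveI := Classical.propDecidable (π a = e)
  if π a = e then 0 else (om (π a) f).natAbs

lemma N2_e {X : Type*} {π : X → V g} {e f : V g} {a : X} (h : π a = e) : N2 π e f a = 0 := by
  simp [N2, h]

lemma N2_ne {X : Type*} {π : X → V g} {e f : V g} {a : X} (h : π a ≠ e) :
    N2 π e f a = (om (π a) f).natAbs := by
  simp [N2, h]

/-- A plane `e, u`. -/
lemma adjA_eu {e f u u' : V g} (hef : om e f = 1) (hu : InQ e f u) (hu' : InQ e f u')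
    (huu' : om u u' = 1) : AdjA e u := by
  refine ⟨by rw [om_swap, hu.1, neg_zero], ⟨f, hef, hu.2⟩, u', ?_, huu'⟩
  rw [om_swap, hu'.1, neg_zero]

/-- The fan. -/
lemma fan {X : Type*} {π : X → V g} {E : X → X → Prop} (C : Cov π E) {e f u u' : V g}
    (hef : om e f = 1) (hu : InQ e f u) (hu' : InQ e f u') (huu' : om u u' = 1) {k : ℤ}
    (hk : k = 1 ∨ k = -1) (n : ℕ) : ∀ x, π x = k • e + ((n : ℤ) + 1) • u →
      ∃ t, π t = e ∧ (∀ (s : ℤ) y, (s = 1 ∨ s = -1) → E x y → π y = s • u → E y t) ∧
        (n = 0 → E x t) := by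
  have hA := adjA_eu hef hu hu' huu'
  induction n with
  | zero =>
    intro x hx
    have h1 : Adj (π x) e := by
      left
      have h2 := hA.plane (a := (k, 1)) (b := (1, 0)) (by
        unfold FStep
        rcases hk with h | h <;> rw [h] <;> norm_num)
      simp only [one_smul, zero_smul, add_zero] at h2
      rw [hx]
      simpa using h2
    obtain ⟨t, ht, hxt⟩ := C.lift x e h1
    refine ⟨t, ht, ?_, fun _ => hxt⟩
    intro s y hs hxy hy
    refine C.cell x y t ?_ hxy hxt
    refine Or.inl ⟨C.adj x y hxy, k, -(k * s), hk, ?_, ?_⟩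
    · rcases hk with h | h <;> rcases hs with h' | h' <;> rw [h, h'] <;> norm_num
    · rw [ht, hx, hy]
      rcases hk with h | h <;> rcases hs with h' | h' <;> rw [h, h'] <;> simp
  | succ n ih =>
    intro x hx
    have h1 : Adj (π x) (k • e + ((n : ℤ) + 1) • u) := by
      left
      have h2 := hA.plane (a := (k, (n : ℤ) + 2)) (b := (k, (n : ℤ) + 1)) (by
        unfold FStep
        rcases hk with h | h <;> rw [h]
        · right; ring
        · left; ring)
      rw [hx]
      push_cast
      simpa [add_assoc, one_add_one_eq_two] using h2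
    obtain ⟨x', hx', hxx'⟩ := C.lift x _ h1
    obtain ⟨t, ht, h3, -⟩ := ih x' hx'
    refine ⟨t, ht, ?_, fun h => absurd h (Nat.succ_ne_zero n)⟩
    intro s y hs hxy hy
    refine h3 s y hs ?_ hy
    refine C.symm _ _ (C.cell x y x' ?_ hxy hxx')
    refine Or.inl ⟨C.adj x y hxy, 1, -s, Or.inl rfl, ?_, ?_⟩
    · rcases hs with h' | h' <;> rw [h'] <;> norm_num
    · have hss : s * s = 1 := by rcases hs with h' | h' <;> rw [h'] <;> rfl
      rw [hx', hx, hy, smul_smul, neg_mul, hss]
      push_cast
      module

/-- Level one, all neighbours of level zero are joined. -/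
lemma level1 {X : Type*} {π : X → V g} {E : X → X → Prop} (hg : 2 ≤ g) (C : Cov π E) {e f : V g}
    (hef : om e f = 1) {x : X} (hxe : om (π x) e = 0) (hx1 : π x ≠ e)
    (hxf : om (π x) f = 1 ∨ om (π x) f = -1) :
    ∀ y z, E x y → E x z → om (π y) e = 0 → om (π z) e = 0 → (π y = e ∨ om (π y) f = 0) →
      (π z = e ∨ om (π z) f = 0) →
      ReflTransGen (fun a b => E a b ∧ (om (π a) e = 0 ∧ (π a = e ∨ om (π a) f = 0)) ∧
        (om (π b) e = 0 ∧ (π b = e ∨ om (π b) f = 0))) y z := by
  obtain ⟨k, hk⟩ : ∃ k, k = om (π x) f := ⟨_, rfl⟩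
  rw [← hk] at hxf
  have hk0 : k ≠ 0 := by rcases hxf with h | h <;> rw [h] <;> decide
  have hkk : k * k = 1 := by rcases hxf with h | h <;> rw [h] <;> rfl
  have hQ : InQ e f (π x - k • e) := by
    constructor
    · rw [om_sub_left, om_smul_left, om_self, hxe]; ring
    · rw [om_sub_left, om_smul_left, hef, ← hk]; ring
  have hsymm : ∀ a b, (E a b ∧ (om (π a) e = 0 ∧ (π a = e ∨ om (π a) f = 0)) ∧
        (om (π b) e = 0 ∧ (π b = e ∨ om (π b) f = 0))) → (E b a ∧ (om (π b) e = 0 ∧
        (π b = e ∨ om (π b) f = 0)) ∧ (om (π a) e = 0 ∧ (π a = e ∨ om (π a) f = 0))) :=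
    fun a b h => ⟨C.symm _ _ h.1, h.2.2, h.2.1⟩
  by_cases h0 : π x - k • e = 0
  · -- `π x = -e`
    have hxk : π x = k • e := sub_eq_zero.1 h0
    have hkm : k = -1 := by
      rcases hxf with h | h
      · exfalso
        rw [h, one_smul] at hxk
        exact hx1 hxk
      · exact h
    rw [hkm] at hxk
    have hve : π x = -e := by rw [hxk]; simp
    have hpair : om (π x) (-f) = 1 := by rw [hve, om_neg_left, om_neg_right, hef]; rfl
    have hinQ : ∀ a, om a e = 0 → om a f = 0 → InQ (π x) (-f) a := by
      intro a h1 h2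
      constructor
      · rw [hve, om_neg_right, h1, neg_zero]
      · rw [om_neg_right, h2, neg_zero]
    have hnb : ∀ y, E x y → om (π y) e = 0 → (π y = e ∨ om (π y) f = 0) → om (π y) f = 0 := by
      intro y hxy _ h2
      rcases h2 with h2 | h2
      · exfalso
        have h3 := C.adj x y hxy
        rw [h2, hve] at h3
        rcases h3 with ⟨-, ⟨a, a1, a2⟩, -⟩ | h3
        · rw [om_neg_left, a2] at a1
          omega
        · unfold AdjB at h3
          rw [om_neg_left, om_self] at h3
          omega
      · exact h2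
    intro y z hxy hxz hye hze hyf hzf
    have hyf' := hnb y hxy hye hyf
    have hzf' := hnb z hxz hze hzf
    have h1 := conn hg hpair (hinQ _ hye hyf') (C.adj x y hxy).right (hinQ _ hze hzf')
      (C.adj x z hxz).right
    have h2 : ReflTransGen (fun a b => Cell (π x) a b ∧ (om a e = 0 ∧ om a f = 0) ∧
        (om b e = 0 ∧ om b f = 0)) (π y) (π z) := by
      refine ReflTransGen.mono ?_ _ _ h1
      intro a b hab
      obtain ⟨ha, hb, hab⟩ := hab
      refine ⟨?_, ?_, ?_⟩
      · have := cell_lift hpair ha hb hab 0 0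
        simpa using this
      · have e1 := ha.1
        have e2 := ha.2
        rw [hve, om_neg_right] at e1
        rw [om_neg_right] at e2
        exact ⟨by omega, by omega⟩
      · have e1 := hb.1
        have e2 := hb.2
        rw [hve, om_neg_right] at e1
        rw [om_neg_right] at e2
        exact ⟨by omega, by omega⟩
    have h3 := C.link hxy hxz (fun a => om a e = 0 ∧ om a f = 0) h2
    refine ReflTransGen.mono ?_ _ _ h3
    intro a b hab
    exact ⟨hab.1, ⟨hab.2.1.1, Or.inr hab.2.1.2⟩, hab.2.2.1, Or.inr hab.2.2.2⟩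
  · -- `π x = k e + c u`
    obtain ⟨c, u, hc, hup, hu, hcu⟩ := hQ.exists_prim h0
    obtain ⟨u', hu', huu'⟩ := hu.dual hef hup
    have hxk : π x = k • e + c • u := by rw [← hcu]; module
    obtain ⟨n, hn⟩ : ∃ n : ℕ, c = (n : ℤ) + 1 := ⟨(c - 1).toNat, by omega⟩
    obtain ⟨t, ht, ht1, ht2⟩ := fan C hef hu hu' huu' hxf n x (by rw [hxk, hn])
    have hte : om (π t) e = 0 := by rw [ht, om_self]
    have hA := adjA_eu hef hu hu' huu'
    have heu : om e u = 0 := hA.1
    have hxu : Adj (π x) u := by
      left
      have h2 := hA.plane (a := (k, c)) (b := (0, 1)) (by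
        unfold FStep
        rcases hxf with h | h <;> rw [h] <;> norm_num)
      rw [hxk]
      simpa using h2
    -- all neighbours are joined to `t`
    have key : ∀ y, E x y → om (π y) e = 0 → (π y = e ∨ om (π y) f = 0) →
        ReflTransGen (fun a b => E a b ∧ (om (π a) e = 0 ∧ (π a = e ∨ om (π a) f = 0)) ∧
        (om (π b) e = 0 ∧ (π b = e ∨ om (π b) f = 0))) y t := by
      intro y hxy hye hyf
      -- neighbours over `± u`
      have hpm : ∀ (s : ℤ) y, (s = 1 ∨ s = -1) → E x y → π y = s • u →
          ReflTransGen (fun a b => E a b ∧ (om (π a) e = 0 ∧ (π a = e ∨ om (π a) f = 0)) ∧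
          (om (π b) e = 0 ∧ (π b = e ∨ om (π b) f = 0))) y t := by
        intro s y hs hxy hy
        refine ReflTransGen.single ⟨ht1 s y hs hxy hy, ⟨?_, Or.inr ?_⟩, hte, Or.inl ht⟩
        · rw [hy, om_smul_left, hu.1, mul_zero]
        · rw [hy, om_smul_left, hu.2, mul_zero]
      have hc1 : ∀ y, E x y → om (π y) e = 0 → AdjB (π x) (π y) → n = 0 := by
        intro y hxy hye hB
        unfold AdjB at hB
        have h1 : om (π x) (π y) = c * om u (π y) := by
          rw [hxk, om_add_left, om_smul_left, om_smul_left, om_swap e (π y), hye]; ring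
        rw [h1] at hB
        have h2 : IsUnit c := by
          rcases hB with h | h
          · exact IsUnit.of_mul_eq_one _ h
          · exact IsUnit.of_mul_eq_one (-om u (π y)) (by linear_combination -h)
        rcases Int.isUnit_iff.1 h2 with h | h <;> omega
      rcases hyf with hyf | hyf
      · -- over `e`
        have h1 := C.adj x y hxy
        rw [hyf] at h1
        have hn0 : n = 0 := by
          rcases h1 with ⟨-, -, b, b1, b2⟩ | h1
          · rw [hxk, om_add_left, om_smul_left, om_smul_left, b2] at b1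
            have h2 : IsUnit c := by
              refine IsUnit.of_mul_eq_one (-(k * om u b)) ?_
              linear_combination (-k) * b1 + hkk
            rcases Int.isUnit_iff.1 h2 with h | h <;> omega
          · exfalso
            unfold AdjB at h1
            rw [hxe] at h1
            omega
        have h2 := ht2 hn0
        have h3 : y = t := C.uniq x y t hxy h2 (by rw [hyf, ht])
        rw [h3]
      · have hyQ : InQ e f (π y) := ⟨hye, hyf⟩
        rcases C.adj x y hxy with hA' | hB
        · -- type A
          have huw : om u (π y) = 0 := by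
            have h1 := hA'.1
            rw [hxk, om_add_left, om_smul_left, om_smul_left, om_swap e (π y), hye, neg_zero,
              mul_zero, zero_add] at h1
            exact (mul_eq_zero.1 h1).resolve_left hc.ne'
          obtain ⟨β, hβ⟩ : ∃ β, β = om (π y) u' := ⟨_, rfl⟩
          obtain ⟨w, hw⟩ : ∃ w, w = π y - β • u := ⟨_, rfl⟩
          have hwQ : InQ e f w := by
            rw [hw]
            have := hyQ.comb hu 1 (-β)
            rwa [one_smul, neg_smul, ← sub_eq_add_neg] at this
          have hwU : InQ u u' w := by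
            constructor
            · rw [hw, om_sub_left, om_smul_left, om_self, om_swap (π y) u, huw]; ring
            · rw [hw, om_sub_left, om_smul_left, huu', ← hβ]; ring
          have hyw : π y = β • u + w := by rw [hw]; module
          obtain ⟨t', ht'⟩ := (C.adj x y hxy).right
          by_cases hw0 : w = 0
          · rw [hw0, add_zero] at hyw
            rw [hyw, om_smul_left] at ht'
            exact hpm β y (Int.eq_one_or_neg_one_of_mul_eq_one ht') hxy hyw
          · obtain ⟨γ, r, hγ, hrp, hrU, hwr⟩ := hwU.exists_prim hw0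
            have hrQ : InQ e f r := by
              rw [hwr] at hwQ
              exact hwQ.smul_of hγ.ne'
            obtain ⟨r1, hr1, hrr1⟩ := hrQ.dual hef hrp
            obtain ⟨r', hr'U, hr'⟩ : ∃ r', InQ u u' r' ∧ r' = prQ u u' r1 :=
              ⟨_, prQ_mem huu' r1, rfl⟩
            have hrr' : om r r' = 1 := by rw [hr', om_prQ hrU, hrr1]
            have F : Fr e f u u' r r' :=
              { ef := hef
                uu := huu'
                rr := hrr'
                eu := heu
                er := by rw [om_swap, hrQ.1, neg_zero]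
                ur := by rw [om_swap, hrU.1, neg_zero]
                eu' := by rw [om_swap, hu'.1, neg_zero]
                er' := by
                  rw [hr', prQ, om_add_right, om_sub_right, om_smul_right, om_smul_right, heu,
                    om_swap e r1, hr1.1, om_swap e u', hu'.1]
                  ring
                uf := hu.2
                ur' := by rw [om_swap, hr'U.1, neg_zero]
                rf := hrQ.2
                ru' := hrU.2 }
            have hcop : IsCoprime β γ := by
              rw [hyw, hwr, om_add_left, om_smul_left, om_smul_left] at ht'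
              exact ⟨om u t', om r t', by linear_combination ht'⟩
            let S : V g → Prop := fun a => om a e = 0 ∧ om a f = 0
            have hpath : ReflTransGen (fun a b => Cell (π x) a b ∧ S a ∧ S b)
                (β • u + γ • r) ((1 : ℤ) • u + (0 : ℤ) • r) := by
              refine ReflTransGen.lift (r := FStep)
                (p := fun a b => Cell (π x) a b ∧ S a ∧ S b)
                (fun p : ℤ × ℤ => p.1 • u + p.2 • r) ?_ (β, γ) (1, 0) (farey' hcop)
              intro p q hpq
              refine ⟨?_, hu.comb hrQ _ _, hu.comb hrQ _ _⟩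
              have e1 : k • e + c • u = k • e + c • u + (0 : ℤ) • r := by module
              have e2 : p.1 • u + p.2 • r = (0 : ℤ) • e + p.1 • u + p.2 • r := by module
              have e3 : q.1 • u + q.2 • r = (0 : ℤ) • e + q.1 • u + q.2 • r := by module
              change Cell (π x) (p.1 • u + p.2 • r) (q.1 • u + q.2 • r)
              rw [hxk, e1, e2, e3]
              refine Or.inr (Or.inr (Or.inr (Or.inr ?_)))
              refine F.iso3 _ _ _ _ _ _ _ _ _ (k * (p.1 * q.2 - p.2 * q.1)) (by ring) ?_
              rcases hxf with h | h <;> rcases hpq with h' | h' <;> rw [h, h'] <;> norm_num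
            rw [one_smul, zero_smul, add_zero, ← hwr, ← hyw] at hpath
            obtain ⟨y', hy', hxy'⟩ := C.lift x u hxu
            rw [← hy'] at hpath
            have h3 := C.link hxy hxy' S hpath
            have h4 : ReflTransGen (fun a b => E a b ∧ (om (π a) e = 0 ∧
                (π a = e ∨ om (π a) f = 0)) ∧
                (om (π b) e = 0 ∧ (π b = e ∨ om (π b) f = 0))) y y' := by
              refine ReflTransGen.mono ?_ _ _ h3
              intro a b hab
              exact ⟨hab.1, ⟨hab.2.1.1, Or.inr hab.2.1.2⟩, hab.2.2.1, Or.inr hab.2.2.2⟩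
            exact h4.trans (hpm 1 y' (Or.inl rfl) hxy' (by rw [hy', one_smul]))
        · -- type B
          have h2 := ht2 (hc1 y hxy hye hB)
          refine ReflTransGen.single ⟨C.cell x y t ?_ hxy h2, ⟨hye, Or.inr hyf⟩, hte, Or.inl ht⟩
          rw [ht]
          refine Or.inr (Or.inr (Or.inr (Or.inl ⟨⟨f, hef⟩, ?_, ?_, hB⟩)))
          · rw [om_swap, hxe, neg_zero]
          · rw [om_swap, hye, neg_zero]
    intro y z hxy hxz hye hze hyf hzf
    exact (key y hxy hye hyf).trans (rtg_symm hsymm (key z hxz hze hzf))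

/-- Step 2. -/
theorem step2 {X : Type*} {π : X → V g} {E : X → X → Prop} (hg : 2 ≤ g) (C : Cov π E) {e f : V g}
    (hef : om e f = 1) {x y : X}
    (h : ReflTransGen (fun a b => E a b ∧ om (π a) e = 0 ∧ om (π b) e = 0) x y)
    (hx : π x = e) (hy : π y = e) :
    ReflTransGen (fun a b => E a b ∧ (om (π a) e = 0 ∧ (π a = e ∨ om (π a) f = 0)) ∧
        (om (π b) e = 0 ∧ (π b = e ∨ om (π b) f = 0))) x y := by
  have hN0 : ∀ a, N2 π e f a = 0 → π a = e ∨ om (π a) f = 0 := by
    intro a ha
    by_cases h1 : π a = e
    · exact Or.inl h1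
    · rw [N2_ne h1] at ha
      exact Or.inr (Int.natAbs_eq_zero.1 ha)
  have h1 := peak (fun a b => E a b ∧ om (π a) e = 0 ∧ om (π b) e = 0)
    (fun a b hab => ⟨C.symm _ _ hab.1, hab.2.2, hab.2.1⟩) (N2 π e f) ?_ ?_ x y h (N2_e hx)
    (N2_e hy)
  · refine ReflTransGen.mono ?_ _ _ h1
    intro a b hab
    exact ⟨hab.1.1, ⟨hab.1.2.1, hN0 a hab.2.1⟩, hab.1.2.2, hN0 b hab.2.2⟩
  · -- edges of positive level
    rintro x y ⟨hE, hxe, hye⟩ hN hpos
    have hx1 : π x ≠ e := by
      intro h1
      rw [N2_e h1] at hpos
      exact lt_irrefl 0 hpos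
    have hy1 : π y ≠ e := by
      intro h1
      rw [hN, N2_e h1] at hpos
      exact lt_irrefl 0 hpos
    rw [N2_ne hx1, N2_ne hy1] at hN
    obtain ⟨s, hs, hs0⟩ : ∃ s : ℤ, (s = 1 ∨ s = -1) ∧
        om ((1 : ℤ) • π x + s • π y) f = 0 := by
      rcases Int.natAbs_eq_natAbs_iff.1 hN with h4 | h4
      · exact ⟨-1, Or.inr rfl, by rw [om_add_left, om_smul_left, om_smul_left, h4]; ring⟩
      · exact ⟨1, Or.inl rfl, by rw [om_add_left, om_smul_left, om_smul_left, h4]; ring⟩
    obtain ⟨z', h1, h2, h3⟩ := C.third (w := (1 : ℤ) • π x + s • π y)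
      (Or.inl ⟨C.adj x y hE, 1, s, Or.inl rfl, hs, rfl⟩) hE
    have hze : om (π z') e = 0 := by
      rw [h1, om_add_left, om_smul_left, om_smul_left, hxe, hye]; ring
    refine ⟨z', ?_, ⟨h2, hxe, hze⟩, C.symm _ _ h3, hze, hye⟩
    by_cases h4 : π z' = e
    · rw [N2_e h4]
      exact hpos
    · rw [N2_ne h4, h1, hs0]
      exact hpos
  · -- links
    rintro x y z ⟨hxy, hxe, hye⟩ ⟨hxz, -, hze⟩ hyN hzN
    have hx1 : π x ≠ e := by
      intro h1
      rw [N2_e h1] at hyN
      exact Nat.not_lt_zero _ hyN
    have hNx := N2_ne (f := f) hx1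
    rcases Nat.lt_or_ge (N2 π e f x) 2 with hR | hR
    · -- level one
      have hx2 : N2 π e f x = 1 := by omega
      have hxf : om (π x) f = 1 ∨ om (π x) f = -1 := by
        rw [hNx] at hx2
        omega
      have h2 := level1 hg C hef hxe hx1 hxf y z hxy hxz hye hze (hN0 y (by omega))
        (hN0 z (by omega))
      refine ReflTransGen.mono ?_ _ _ h2
      intro a b hab
      have hlow : ∀ a, (π a = e ∨ om (π a) f = 0) → N2 π e f a < N2 π e f x := by
        intro a ha
        rw [hx2]
        rcases ha with ha | ha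
        · rw [N2_e ha]; exact Nat.zero_lt_one
        · by_cases h4 : π a = e
          · rw [N2_e h4]; exact Nat.zero_lt_one
          · rw [N2_ne h4, ha]; exact Nat.zero_lt_one
      exact ⟨⟨hab.1, hab.2.1.1, hab.2.2.1⟩, hlow a hab.2.1.2, hlow b hab.2.2.2⟩
    · -- level at least two
      have hR' : 2 ≤ |om (π x) f| := by
        rw [Int.abs_eq_natAbs, ← hNx]
        exact_mod_cast hR
      obtain ⟨w0, hw0⟩ := link2 hef (C.adj x y hxy).left hxe hR'
      have hLo : ∀ a, om (π a) e = 0 → N2 π e f a < N2 π e f x → Lo e f (π x) (π a) := by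
        intro a ha hN
        refine ⟨ha, ?_⟩
        by_cases h4 : π a = e
        · rw [h4, hef, abs_one]
          omega
        · rw [N2_ne h4, hNx] at hN
          rw [Int.abs_eq_natAbs, Int.abs_eq_natAbs]
          exact_mod_cast hN
      have h2 := (hw0 _ (C.adj x y hxy) (hLo y hye hyN)).trans
        (rtg_symm (fun a b hab => hab.symm) (hw0 _ (C.adj x z hxz) (hLo z hze hzN)))
      have h3 := C.link hxy hxz (Lo e f (π x)) h2
      refine ReflTransGen.mono ?_ _ _ h3
      intro a b hab
      have hlow : ∀ a, Lo e f (π x) (π a) → N2 π e f a < N2 π e f x := by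
        intro a ha
        by_cases h4 : π a = e
        · rw [N2_e h4]; omega
        · rw [N2_ne h4, hNx]
          have h5 := ha.2
          rw [Int.abs_eq_natAbs, Int.abs_eq_natAbs] at h5
          exact_mod_cast h5
      exact ⟨⟨hab.1, hab.2.1.1, hab.2.2.1⟩, hlow a hab.2.1, hlow b hab.2.2⟩

end Pool.Agent.H.MP_59b15d_al.PC
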